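import Pool.Agent.Lib.MP_6bc78b_nt.GP.H62.Defs7

/-! Project GP7 (MP_6bc78b_nt): row ARI0. -/

set_option autoImplicit false

open Complex Filter Topology MeasureTheory ArithmeticFunction Set

namespace Pool.Agent.Lib.MP_6bc78b_nt.GP.H70

open Pool.Agent.Lib.MP_6bc78b_nt.GP.G7

/-- The constant. -/
noncomputable def kap (a : ℝ) : ℝ := (min 1 (a / 4))⁻¹ ^ 4

theorem kap_pos {a : ℝ} (ha : 0 < a) : 0 < kap a := by
  unfold kap
  positivity

theorem weight {a : ℝ} (ha : 0 < a) {x : ℝ} (hx : 0 ≤ x) (u : ℝ)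
    (hux : u ≤ (1 + x) ^ 4) : u * Real.exp (-(2 * a * x)) ≤ kap a * Real.exp (-(a * x)) := by
  have hm : 0 < min 1 (a / 4) := by positivity
  have h1 : min 1 (a / 4) * (1 + x) ≤ Real.exp (a * x / 4) := by
    have h2 : min 1 (a / 4) * (1 + x) ≤ 1 + a * x / 4 := by
      have h3 : min 1 (a / 4) ≤ 1 := min_le_left _ _
      have h4 : min 1 (a / 4) ≤ a / 4 := min_le_right _ _
      have h5 : min 1 (a / 4) * x ≤ a / 4 * x := mul_le_mul_of_nonneg_right h4 hx
      linarith
    have h3 := Real.add_one_le_exp (a * x / 4)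
    linarith
  have h2 : (min 1 (a / 4)) ^ 4 * (1 + x) ^ 4 ≤ Real.exp (a * x) := by
    rw [← mul_pow]
    calc (min 1 (a / 4) * (1 + x)) ^ 4 ≤ (Real.exp (a * x / 4)) ^ 4 :=
          pow_le_pow_left₀ (by positivity) h1 4
      _ = Real.exp (a * x) := by
        rw [← Real.exp_nat_mul]
        congr 1
        push_cast
        ring
  have h3 : (1 + x) ^ 4 ≤ kap a * Real.exp (a * x) := by
    unfold kap
    rw [inv_pow, ← div_eq_inv_mul, le_div_iff₀ (by positivity)]
    linarith
  calc u * Real.exp (-(2 * a * x)) ≤ (kap a * Real.exp (a * x)) * Real.exp (-(2 * a * x)) :=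
        mul_le_mul_of_nonneg_right (hux.trans h3) (Real.exp_pos _).le
    _ = kap a * Real.exp (-(a * x)) := by
      rw [mul_assoc, ← Real.exp_add]
      congr 2
      ring

theorem log_bound {T : ℝ} (hT : 1 ≤ T) (n : ℕ) :
    1 + Real.log n ≤ (1 + Real.log T) * (1 + n / T) := by
  have hL : 0 ≤ Real.log T := Real.log_nonneg hT
  have hT0 : 0 < T := by linarith
  rcases Nat.eq_zero_or_pos n with rfl | hn
  · simp only [Nat.cast_zero, Real.log_zero, zero_div, add_zero, mul_one]
    linarith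
  · have hn' : (0 : ℝ) < n := by exact_mod_cast hn
    have h1 : Real.log n = Real.log T + Real.log (n / T) := by
      rw [Real.log_div hn'.ne' hT0.ne']
      ring
    have h2 := Real.log_le_sub_one_of_pos (div_pos hn' hT0)
    have h3 : 0 ≤ (n : ℝ) / T := by positivity
    nlinarith

theorem one_le_log {T : ℝ} (hT : 10 ≤ T) : 1 ≤ Real.log T := by
  rw [Real.le_log_iff_exp_le (by linarith)]
  have := Real.exp_one_lt_d9
  linarith

theorem geo {b : ℝ} (hb : 0 < b) : Summable (fun n : ℕ => Real.exp (-(b * n))) ∧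
    ∑' n : ℕ, Real.exp (-(b * n)) ≤ 1 + 1 / b := by
  have h1 : ∀ n : ℕ, Real.exp (-(b * n)) = Real.exp (-b) ^ n := by
    intro n
    rw [← Real.exp_nat_mul]
    congr 1
    ring
  have h2 : Real.exp (-b) < 1 := by
    rw [Real.exp_lt_one_iff]
    linarith
  have h3 : 0 ≤ Real.exp (-b) := (Real.exp_pos _).le
  simp only [h1]
  refine ⟨summable_geometric_of_lt_one h3 h2, ?_⟩
  rw [tsum_geometric_of_lt_one h3 h2]
  have h4 : Real.exp (-b) ≤ 1 / (1 + b) := by
    rw [Real.exp_neg, ← one_div]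
    apply one_div_le_one_div_of_le (by linarith)
    have := Real.add_one_le_exp b
    linarith
  have h5 : b / (1 + b) ≤ 1 - Real.exp (-b) := by
    have : b / (1 + b) = 1 - 1 / (1 + b) := by
      field_simp
      ring
    linarith
  calc (1 - Real.exp (-b))⁻¹ ≤ (b / (1 + b))⁻¹ := inv_anti₀ (by positivity) h5
    _ = 1 + 1 / b := by
      rw [inv_div]
      field_simp
      ring

theorem term_bound {a T : ℝ} (ha : 0 < a) (hT : 1 ≤ T) (n k : ℕ) (hk : k ≤ 4) :
    (1 + Real.log n) ^ k * Real.exp (-(2 * a / T * n)) ≤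
      (1 + Real.log T) ^ k * (kap a * Real.exp (-(a / T * n))) := by
  have hL : 0 ≤ Real.log T := Real.log_nonneg hT
  have hT0 : 0 < T := by linarith
  have hx : 0 ≤ (n : ℝ) / T := by positivity
  have h0 : 0 ≤ Real.log (n : ℝ) := Real.log_natCast_nonneg n
  have h1 := log_bound hT n
  have h2 : (1 + Real.log n) ^ k ≤ (1 + Real.log T) ^ k * (1 + n / T) ^ k := by
    rw [← mul_pow]
    exact pow_le_pow_left₀ (by linarith) h1 k
  have h3 := weight ha hx ((1 + (n : ℝ) / T) ^ k)
    (pow_le_pow_right₀ (by linarith) hk)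
  have e1 : 2 * a / T * n = 2 * a * (n / T) := by ring
  have e2 : a / T * n = a * (n / T) := by ring
  rw [e1, e2]
  calc (1 + Real.log n) ^ k * Real.exp (-(2 * a * (n / T))) ≤
      ((1 + Real.log T) ^ k * (1 + n / T) ^ k) * Real.exp (-(2 * a * (n / T))) :=
        mul_le_mul_of_nonneg_right h2 (Real.exp_pos _).le
    _ = (1 + Real.log T) ^ k * ((1 + n / T) ^ k * Real.exp (-(2 * a * (n / T)))) := by ring
    _ ≤ _ := mul_le_mul_of_nonneg_left h3 (by positivity)

/-- ARI0. -/
theorem ari0 : ARI0Statement := by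
  intro a ha
  refine ⟨16 * kap a * (1 + 1 / a), by have := kap_pos ha; positivity, ?_⟩
  intro T hT
  have hT0 : 0 < T := by linarith
  have hL := one_le_log hT
  have hg := geo (show 0 < a / T by positivity)
  have hb : ∀ n : ℕ, (1 + Real.log n) ^ 4 * Real.exp (-(2 * a / T * n)) ≤
      (1 + Real.log T) ^ 4 * (kap a * Real.exp (-(a / T * n))) :=
    fun n => term_bound ha (by linarith) n 4 le_rfl
  have h0 : ∀ n : ℕ, 0 ≤ (1 + Real.log n) ^ 4 * Real.exp (-(2 * a / T * n)) := by
    intro n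
    have : 0 ≤ Real.log (n : ℝ) := Real.log_natCast_nonneg n
    positivity
  have hs : Summable fun n : ℕ => (1 + Real.log T) ^ 4 * (kap a * Real.exp (-(a / T * n))) :=
    (hg.1.mul_left _).mul_left _
  have hs1 := Summable.of_nonneg_of_le h0 hb hs
  refine ⟨hs1, ?_⟩
  calc ∑' n : ℕ, (1 + Real.log n) ^ 4 * Real.exp (-(2 * a / T * n)) ≤
      ∑' n : ℕ, (1 + Real.log T) ^ 4 * (kap a * Real.exp (-(a / T * n))) :=
        hs1.tsum_le_tsum hb hs
    _ = (1 + Real.log T) ^ 4 * (kap a * ∑' n : ℕ, Real.exp (-(a / T * n))) := by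
        rw [tsum_mul_left, tsum_mul_left]
    _ ≤ (2 * Real.log T) ^ 4 * (kap a * (T * (1 + 1 / a))) := by
        have h1 : (1 + Real.log T) ^ 4 ≤ (2 * Real.log T) ^ 4 :=
          pow_le_pow_left₀ (by linarith) (by linarith) 4
        have h2 : ∑' n : ℕ, Real.exp (-(a / T * n)) ≤ T * (1 + 1 / a) := by
          refine hg.2.trans ?_
          have : 1 / (a / T) = T * (1 / a) := by field_simp
          rw [this]
          nlinarith [show (0 : ℝ) < 1 / a by positivity]
        have hk := kap_pos ha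
        have h3 : 0 ≤ ∑' n : ℕ, Real.exp (-(a / T * n)) :=
          tsum_nonneg fun n => (Real.exp_pos _).le
        exact mul_le_mul h1 (mul_le_mul_of_nonneg_left h2 hk.le) (by positivity) (by positivity)
    _ = 16 * kap a * (1 + 1 / a) * T * Real.log T ^ 4 := by ring

end Pool.Agent.Lib.MP_6bc78b_nt.GP.H70
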