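import Pool.Agent.Lib.MP_6bc78b_nt.GP.H62.Defs9
import Pool.Agent.Lib.MP_6bc78b_nt.GP.H47.Contour

/-! Project GP9 (MP_6bc78b_nt), row CONK: the contour identity for the window
`exp (1 - cosh ((γ - t) / H))`. Compare `GP.H47.Contour`. -/

set_option autoImplicit false

open Complex Set Filter Topology MeasureTheory intervalIntegral

namespace Pool.Agent.Lib.MP_6bc78b_nt.GP.H70K

open Pool.Agent.Lib.MP_6bc78b_nt Pool.Agent.Lib.MP_6bc78b_nt.LL Pool.Agent.Lib.MP_6bc78b_nt.H11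
open Pool.Agent.Lib.MP_6bc78b_nt.MS Pool.Agent.Lib.MP_6bc78b_nt.MS.P1
open Pool.Agent.Lib.MP_6bc78b_nt.MS.P1.ZSF
open Pool.Agent.Lib.MP_6bc78b_nt.GP Pool.Agent.Lib.MP_6bc78b_nt.GP.G9
open Pool.Agent.Lib.MP_6bc78b_nt.GP.H47 (om0_diff om0_mid poly_part norm_LSeries_le UH_open
  zeta1_diffOn F0_diffOn tail_bound ends_bound piece_bound side_bound left_bound good_form
  final_arith)

lemma cosh_ge (y : ℝ) : y ^ 2 / 4 ≤ Real.cosh y := by
  rw [← Real.cosh_abs, ← sq_abs, Real.cosh_eq]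
  have h1 := Real.quadratic_le_exp_of_nonneg (abs_nonneg y)
  have h2 := Real.exp_pos (-|y|)
  have h3 := abs_nonneg y
  linarith

lemma GK_small : ∀ᶠ T : ℝ in atTop, ∀ (t H : ℝ) (s : ℂ), 4 ≤ H → H ≤ Real.log T →
    -(1 / 2) ≤ s.re → s.re ≤ 3 / 2 → T / 4 ≤ |s.im - t| →
    ‖GK H t s‖ ≤ 1 / T ^ 10 / (1 + |s.im - t|) ^ 4 := by
  have hev : ∀ᶠ T : ℝ in atTop, 64 * Real.log T ^ 2 ≤ T := by
    have h1 := (Real.isLittleO_pow_log_id_atTop (n := 2)).bound (show (0 : ℝ) < 1 / 64 by norm_num)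
    filter_upwards [h1, eventually_ge_atTop (1 : ℝ)] with T hT hT1
    rw [id_eq, Real.norm_eq_abs, Real.norm_eq_abs, abs_of_nonneg (by linarith : 0 ≤ T),
      abs_of_nonneg (sq_nonneg (Real.log T))] at hT
    linarith
  filter_upwards [Real.tendsto_log_atTop.eventually_ge_atTop 4, eventually_ge_atTop 40, hev]
    with T hL hT4 h64 t H s hH1 hH2 h1 h2 h3
  have hT0 : 0 < T := by linarith
  obtain ⟨L, hLd⟩ : ∃ L : ℝ, L = Real.log T := ⟨_, rfl⟩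
  obtain ⟨x, hx⟩ : ∃ x : ℝ, x = |s.im - t| := ⟨_, rfl⟩
  refine (norm_GK_le H t s (by linarith) h1 h2).trans ?_
  have hc : (s.im - t) ^ 2 = x ^ 2 := by rw [hx, sq_abs]
  have hcosh := cosh_ge ((s.im - t) / H)
  rw [div_pow, hc] at hcosh
  rw [← hLd] at hL hH2 h64
  rw [← hx] at h3 ⊢
  have hL0 : 0 < L := by linarith
  have hx0 : 0 < x := by linarith
  have hx10 : 10 ≤ x := by linarith
  have hH0 : 0 < H := by linarith
  have hq : 4 * x ≤ x ^ 2 / H ^ 2 / 4 := by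
    rw [le_div_iff₀ (by norm_num), le_div_iff₀ (by positivity)]
    have h4 : H ^ 2 ≤ L ^ 2 := pow_le_pow_left₀ hH0.le hH2 2
    have h5 : 64 * H ^ 2 ≤ 4 * x := by linarith
    nlinarith
  have hlog : Real.log (1 + x) ≤ (1 + x) / 16 + 2 := by
    have h4 : Real.log (1 + x) = Real.log 16 + Real.log ((1 + x) / 16) := by
      rw [← Real.log_mul (by norm_num) (by positivity)]
      congr 1
      field_simp
    have h5 : Real.log ((1 + x) / 16) ≤ (1 + x) / 16 - 1 :=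
      Real.log_le_sub_one_of_pos (by positivity)
    have h6 : Real.log 16 ≤ 3 := by
      have h7 : (16 : ℝ) = 2 ^ 4 := by norm_num
      rw [h7, Real.log_pow]
      have := Real.log_two_lt_d9
      norm_num
      linarith
    linarith
  have hmain : 1 - Real.cosh ((s.im - t) / H) / 2 + 4 * Real.log (1 + x) + 10 * L ≤ 0 := by
    have a1 : 160 * L ≤ 10 * x := by nlinarith
    linarith
  rw [div_div, le_div_iff₀ (by positivity)]
  have e2 : T ^ 10 = Real.exp (10 * L) := by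
    rw [mul_comm, Real.exp_mul, hLd, Real.exp_log hT0]
    norm_cast
  have e3 : (1 + x) ^ 4 = Real.exp (4 * Real.log (1 + x)) := by
    rw [mul_comm, Real.exp_mul, Real.exp_log (by linarith)]
    norm_cast
  rw [e2, e3, ← Real.exp_add, ← Real.exp_add, Real.exp_le_one_iff]
  linarith

/-- `ω` times the window, away from `t`. -/
lemma om_GK_small (hG : GAMCStatement) : ∃ K : ℝ, 0 < K ∧ ∀ᶠ T : ℝ in atTop, ∀ (t δ H : ℝ) (s : ℂ),
    T ≤ t → t ≤ 2 * T → 0 ≤ δ → δ ≤ 1 → 4 ≤ H → H ≤ Real.log T →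
    -(1 / 2) ≤ s.re → s.re ≤ 3 / 2 → (1 ≤ |s.im| ∨ s.re = 3 / 2) → T / 4 ≤ |s.im - t| →
    ‖om0 δ s * GK H t s‖ ≤ K / T ^ 10 * (1 + (s.im - t) ^ 2)⁻¹ := by
  obtain ⟨C1, hC1, h1⟩ := hG.2
  obtain ⟨C2, hC2, h2⟩ := om0_mid
  refine ⟨81 * C1 + C2, by positivity, ?_⟩
  filter_upwards [GK_small, eventually_ge_atTop 4] with T hGK hT4 t δ H s ht1 ht2 hδ1 hδ2 hH1 hH2
    hs1 hs2 hs3 hs4
  have hT0 : 0 < T := by linarith
  have h3 := hGK t H s hH1 hH2 hs1 hs2 hs4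
  obtain ⟨x, hx⟩ : ∃ x : ℝ, x = |s.im - t| := ⟨_, rfl⟩
  have hx2 : (s.im - t) ^ 2 = x ^ 2 := by rw [hx, sq_abs]
  have hxim : |s.im| ≤ x + 2 * T := by
    have h4 : |s.im| ≤ |s.im - t| + |t| := by
      have := abs_add_le (s.im - t) t
      rwa [sub_add_cancel] at this
    rw [abs_of_pos (by linarith : 0 < t), ← hx] at h4
    linarith
  rw [hx2]
  rw [← hx] at h3 hs4
  have hx0 : 0 < x := by linarith
  have hom : ‖om0 δ s‖ ≤ (81 * C1 + C2) * (1 + x) ^ 2 := by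
    rcases le_or_gt 1 |s.im| with h5 | h5
    · have h6 := h1 δ s hδ1 hδ2 hs1 hs2 h5
      have h7 : (1 + |s.im|) ^ 2 ≤ 81 * (1 + x) ^ 2 := by
        have h8 : 1 + |s.im| ≤ 9 * (1 + x) := by linarith
        have h9 : 0 ≤ 1 + |s.im| := by positivity
        nlinarith
      have h10 : 0 ≤ C2 * (1 + x) ^ 2 := by positivity
      nlinarith
    · have h6 : s.re = 3 / 2 := by
        rcases hs3 with h | h
        · linarith
        · exact h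
      have h7 := h2 δ s hδ1 hδ2 h6 h5.le
      have h8 : 1 ≤ (1 + x) ^ 2 := by nlinarith
      have h9 : 0 ≤ 81 * C1 * (1 + x) ^ 2 := by positivity
      nlinarith
  rw [norm_mul]
  have h11 : (1 + x) ^ 2 * (1 / T ^ 10 / (1 + x) ^ 4) ≤ 1 / T ^ 10 * (1 + x ^ 2)⁻¹ := by
    have e : (1 + x) ^ 2 * (1 / T ^ 10 / (1 + x) ^ 4) = 1 / T ^ 10 * ((1 + x) ^ 2)⁻¹ := by
      field_simp
    rw [e]
    gcongr
    nlinarith
  calc ‖om0 δ s‖ * ‖GK H t s‖ ≤ ((81 * C1 + C2) * (1 + x) ^ 2) * (1 / T ^ 10 / (1 + x) ^ 4) := by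
        gcongr
    _ = (81 * C1 + C2) * ((1 + x) ^ 2 * (1 / T ^ 10 / (1 + x) ^ 4)) := by ring
    _ ≤ (81 * C1 + C2) * (1 / T ^ 10 * (1 + x ^ 2)⁻¹) := by gcongr
    _ = (81 * C1 + C2) / T ^ 10 * (1 + x ^ 2)⁻¹ := by ring

lemma omGK_diffOn (δ H t : ℝ) :
    DifferentiableOn ℂ (fun s => om0 δ s * GK H t s) {s : ℂ | 0 < s.im} := fun s hs =>
  ((om0_diff δ (Or.inl (ne_of_gt hs))).mul (GK_diff H t s)).differentiableWithinAt

/-- The residue theorem for `D ω G`. -/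
lemma rect_main (hRH : RiemannHypothesis) (A B δ H t : ℝ) {v w : ℝ} (hv : 0 < v) (hvw : v ≤ w)
    (hv0 : ∀ x ∈ Icc (-(1 / 2) : ℝ) (3 / 2), riemannZeta (x + v * I) ≠ 0)
    (hw0 : ∀ x ∈ Icc (-(1 / 2) : ℝ) (3 / 2), riemannZeta (x + w * I) ≠ 0)
    (Fn : Finset ℝ)
    (hFn : ∀ γ : ℝ, γ ∈ Fn ↔ (v ≤ γ ∧ γ ≤ w) ∧ riemannZeta (1 / 2 + γ * I) = 0) :
    ContinuousOn (fun s => DF A B s * om0 δ s * GK H t s) (bdry (-(1 / 2)) (3 / 2) v w) ∧
    rectI (fun s => DF A B s * om0 δ s * GK H t s) (-(1 / 2)) (3 / 2) v w =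
      2 * Real.pi * I * ∑ γ ∈ Fn, (mz γ : ℂ) * (deriv riemannZeta (1 / 2 + γ * I) *
        (om0 δ (1 / 2 + γ * I) * GK H t (1 / 2 + γ * I))) := by
  have hf : (fun s => DF A B s * om0 δ s * GK H t s) =
      fun s => logDeriv riemannZeta s * (deriv riemannZeta s * (om0 δ s * GK H t s)) +
        (-1) * (F0 A B s * (om0 δ s * GK H t s)) := by
    funext s
    unfold DF FF
    rw [logDeriv_apply]
    ring
  have hsub : Icc (-(1 / 2) : ℝ) (3 / 2) ×ℂ Icc v w ⊆ {s : ℂ | 0 < s.im} := fun s hs =>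
    lt_of_lt_of_le hv hs.2.1
  have hk : DifferentiableOn ℂ (fun s => deriv riemannZeta s * (om0 δ s * GK H t s))
      {s : ℂ | 0 < s.im} := zeta1_diffOn.mul (omGK_diffOn δ H t)
  have hj : DifferentiableOn ℂ (fun s => F0 A B s * (om0 δ s * GK H t s))
      {s : ℂ | 0 < s.im} := (F0_diffOn A B).mul (omGK_diffOn δ H t)
  have hnz : ∀ z ∈ bdry (-(1 / 2)) (3 / 2) v w, riemannZeta z ≠ 0 := by
    intro z hz h0
    obtain ⟨h1, h2, h3⟩ := hz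
    have him : 0 < z.im := lt_of_lt_of_le hv h3.1
    have hz1 := zero_im hRH h0 him.ne'
    have hre : z.re = 1 / 2 := by rw [hz1]; simp
    have e : z = (z.re : ℂ) + z.im * I := (re_add_im z).symm
    rcases h1 with h | h | h | h
    · rw [h] at hre; norm_num at hre
    · rw [h] at hre; norm_num at hre
    · rw [e, h] at h0
      exact hv0 z.re h2 h0
    · rw [e, h] at h0
      exact hw0 z.re h2 h0
  have hc1 : ContinuousOn (fun s => logDeriv riemannZeta s *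
      (deriv riemannZeta s * (om0 δ s * GK H t s))) (bdry (-(1 / 2)) (3 / 2) v w) := by
    intro z hz
    have hzU : z ∈ {s : ℂ | 0 < s.im} := hsub (bdry_sub hz)
    have h1 : z ≠ 1 := by
      rintro rfl
      simp at hzU
    exact (f_contAt (hk.differentiableAt (UH_open.mem_nhds hzU)).continuousAt h1
      (hnz z hz)).continuousWithinAt
  have hc2 : ContinuousOn (fun s => (-1 : ℂ) * (F0 A B s * (om0 δ s * GK H t s)))
      (bdry (-(1 / 2)) (3 / 2) v w) :=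
    ((hj.const_mul (-1 : ℂ)).continuousOn).mono (bdry_sub.trans hsub)
  rw [hf]
  refine ⟨hc1.add hc2, ?_⟩
  rw [rectI_add (by norm_num) hvw hc1 hc2, rectI_const_mul,
    rectI_zero (by norm_num) hvw (hj.mono hsub), mul_zero, add_zero]
  have h5 := zeros_rect hRH UH_open hk (a := -(1 / 2)) (b := 3 / 2) (v := v) (w := w) (by norm_num)
    (by norm_num) hvw hsub (fun s hs => hs)
    (by have := hv0 (1 / 2) ⟨by norm_num, by norm_num⟩; push_cast at this; exact this)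
    (by have := hw0 (1 / 2) ⟨by norm_num, by norm_num⟩; push_cast at this; exact this) Fn hFn
  exact h5

/-- The two analytic parts of the integrand are small away from `t`. -/
lemma box_bound {A B T K2 t δ H : ℝ} (hT40 : 40 ≤ T) (hK2 : 0 < K2)
    (hpoly : ∀ s : ℂ, -(1 / 2) ≤ s.re → s.re ≤ 3 / 2 →
      2 ≤ s.im → s.im ≤ 5 * T → ‖deriv riemannZeta s‖ ≤ T ^ 3 ∧ ‖F0 A B s‖ ≤ T ^ 3)
    (hsm' : ∀ s : ℂ, -(1 / 2) ≤ s.re → s.re ≤ 3 / 2 → (1 ≤ |s.im| ∨ s.re = 3 / 2) →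
      T / 4 ≤ |s.im - t| → ‖om0 δ s * GK H t s‖ ≤ K2 / T ^ 10 * (1 + (s.im - t) ^ 2)⁻¹) :
    ∀ s : ℂ, -(1 / 2) ≤ s.re → s.re ≤ 3 / 2 → 2 ≤ s.im → s.im ≤ 5 * T → T / 4 ≤ |s.im - t| →
      ‖deriv riemannZeta s * (om0 δ s * GK H t s)‖ ≤ K2 / T ^ 7 ∧
      ‖F0 A B s * (om0 δ s * GK H t s)‖ ≤ K2 / T ^ 7 ∧
      ∀ b : ℝ, 0 ≤ b → ‖logDeriv riemannZeta s‖ ≤ b →
        ‖DF A B s * om0 δ s * GK H t s‖ ≤ (b + 1) * (K2 / T ^ 7) := by
  intro s a1 a2 a3 a4 a5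
  have hT0 : 0 < T := by linarith
  obtain ⟨p1, p2⟩ := hpoly s a1 a2 a3 a4
  have p3 := hsm' s a1 a2 (Or.inl (by rw [abs_of_pos (by linarith)]; linarith)) a5
  have p4 : (1 + (s.im - t) ^ 2)⁻¹ ≤ 1 := inv_le_one_of_one_le₀
    (le_add_of_nonneg_right (sq_nonneg (s.im - t)))
  have p5 : ‖om0 δ s * GK H t s‖ ≤ K2 / T ^ 10 :=
    p3.trans (mul_le_of_le_one_right (by positivity) p4)
  have e : K2 / T ^ 7 = T ^ 3 * (K2 / T ^ 10) := by field_simp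
  have q1 : ‖deriv riemannZeta s * (om0 δ s * GK H t s)‖ ≤ K2 / T ^ 7 := by
    rw [norm_mul, e]
    exact mul_le_mul p1 p5 (norm_nonneg _) (by positivity)
  have q2 : ‖F0 A B s * (om0 δ s * GK H t s)‖ ≤ K2 / T ^ 7 := by
    rw [norm_mul, e]
    exact mul_le_mul p2 p5 (norm_nonneg _) (by positivity)
  refine ⟨q1, q2, fun b hb hl => ?_⟩
  have e : DF A B s * om0 δ s * GK H t s =
      logDeriv riemannZeta s * (deriv riemannZeta s * (om0 δ s * GK H t s)) -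
      F0 A B s * (om0 δ s * GK H t s) := by
    unfold DF FF
    rw [logDeriv_apply]
    ring
  rw [e]
  refine (norm_sub_le _ _).trans ?_
  rw [norm_mul]
  have p3 : ‖logDeriv riemannZeta s‖ * ‖deriv riemannZeta s * (om0 δ s * GK H t s)‖ ≤
      b * (K2 / T ^ 7) := mul_le_mul hl q1 (norm_nonneg _) hb
  linarith

/-- CONK. -/
theorem conk (hR : RGTKStatement) (hX : DX2Statement) (hG : GAMCStatement) : CONKStatement := by
  classical
  intro hRH A B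
  obtain ⟨Cg, hCg, hgood⟩ := good_form
  obtain ⟨Co, hCo, hleft⟩ := left_bound hRH
  obtain ⟨Tm, hTm4, hmult⟩ := mult_window
  obtain ⟨K, hK⟩ : ∃ K : ℝ, K = Real.cosh (Real.pi / 2) := ⟨_, rfl⟩
  have hK0 : 0 < K := by rw [hK]; exact Real.cosh_pos _
  rw [← hK] at hmult
  obtain ⟨K2, hK2, hsmall⟩ := om_GK_small hG
  obtain ⟨hLS, hsum, -⟩ := hX A B
  have hsum32 : Summable (fun n : ℕ => ‖((bn A B n : ℝ) : ℂ)‖ * (n : ℝ) ^ (-(3 / 2 : ℝ))) := by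
    simpa only [Complex.norm_real, Real.norm_eq_abs] using hsum (3 / 2) (by norm_num)
  obtain ⟨M2, hM2⟩ : ∃ M2 : ℝ, M2 = ∑' n : ℕ, ‖((bn A B n : ℝ) : ℂ)‖ * (n : ℝ) ^ (-(3 / 2 : ℝ)) :=
    ⟨_, rfl⟩
  have hM20 : 0 ≤ M2 := by rw [hM2]; exact tsum_nonneg fun n => by positivity
  filter_upwards [hsmall, poly_part A B, eventually_ge_atTop 40, eventually_ge_atTop (2 * Tm + 1),
    eventually_ge_atTop (K2 * (6 * K + 4 * Cg + 2 * Co + 4 * M2 + 6))] with T hsm hpoly hT40 hTm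
    hTQ t δ H ht1 ht2 hδ1 hδ2 hH1 hH2
  clear hsmall hsum hX hG hK
  have hT0 : 0 < T := by linarith
  have hδ0 : 0 < δ := lt_of_lt_of_le (by positivity) hδ1
  have hδ3 : δ ≤ 1 / 2 := by
    refine hδ2.trans ?_
    rw [div_le_iff₀ hT0]; linarith
  have hsm' : ∀ s : ℂ, -(1 / 2) ≤ s.re → s.re ≤ 3 / 2 → (1 ≤ |s.im| ∨ s.re = 3 / 2) →
      T / 4 ≤ |s.im - t| → ‖om0 δ s * GK H t s‖ ≤ K2 / T ^ 10 * (1 + (s.im - t) ^ 2)⁻¹ :=
    fun s a1 a2 a3 a4 => hsm t δ H s ht1 ht2 hδ0.le (by linarith) hH1 hH2 a1 a2 a3 a4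
  have hbox := box_bound (A := A) (B := B) hT40 hK2 hpoly hsm'
  obtain ⟨hgint, hSE⟩ := hR A B δ H t hδ0 hδ3 hH1
  clear hsm hpoly hδ1 hδ2 hH1 hH2 hδ3 hR
  -- heights
  obtain ⟨v, hv, hvx⟩ := hgood T (T / 2 - 1 / 2) (by linarith) (by linarith)
  obtain ⟨w, hw, hwx⟩ := hgood T (4 * T + 1 / 2) (by linarith) (by linarith)
  have hv1 : T / 2 - 3 / 4 ≤ v := by linarith [hv.1]
  have hv2 : v ≤ T / 2 - 1 / 4 := by linarith [hv.2]
  have hw1 : 4 * T + 1 / 4 ≤ w := by linarith [hw.1]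
  have hw2 : w ≤ 4 * T + 3 / 4 := by linarith [hw.2]
  have hvw : v ≤ w := by linarith
  have hvpos : 0 < v := by linarith
  have hv3 : 3 ≤ v := by linarith
  have hw5 : w ≤ 5 * T := by linarith
  clear hv hw
  -- distances
  have d1 : ∀ y : ℝ, y ≤ T / 2 → T / 4 ≤ |y - t| := by
    intro y hy
    rw [le_abs]; right; linarith
  have d2 : ∀ y : ℝ, 4 * T ≤ y → T / 4 ≤ |y - t| := by
    intro y hy
    rw [le_abs]; left; linarith
  -- the zeros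
  obtain ⟨Fn, hFn⟩ : ∃ Fn : Finset ℝ, ∀ γ : ℝ, γ ∈ Fn ↔
      (v ≤ γ ∧ γ ≤ w) ∧ riemannZeta (1/2 + γ * I) = 0 := by
    refine ⟨(zeros_in_compact_finite w).toFinset.filter (fun γ => v ≤ γ), fun γ => ?_⟩
    rw [Finset.mem_filter]
    simp only [Set.Finite.mem_toFinset, Set.mem_ofPred_eq]
    constructor
    · rintro ⟨⟨h1, h2⟩, h3⟩
      exact ⟨⟨h3, (abs_le.1 h1).2⟩, h2⟩
    · rintro ⟨⟨h1, h2⟩, h3⟩
      exact ⟨⟨abs_le.2 ⟨by linarith, h2⟩, h3⟩, h1⟩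
  obtain ⟨hcont, hres⟩ := rect_main hRH A B δ H t hvpos hvw (fun x hx => (hvx x hx).1)
    (fun x hx => (hwx x hx).1) Fn hFn
  obtain ⟨f, hf⟩ : ∃ f : ℂ → ℂ, f = fun s => DF A B s * om0 δ s * GK H t s := ⟨_, rfl⟩
  rw [← hf] at hcont hres
  -- the finsum
  have hzset : {γ : ℝ | T / 2 < γ ∧ γ < 4 * T ∧ riemannZeta (1 / 2 + γ * I) = 0} =
      ((Fn.filter (fun γ => T / 2 < γ ∧ γ < 4 * T) : Finset ℝ) : Set ℝ) := by
    ext γ
    simp only [Set.mem_ofPred_eq, Finset.coe_filter]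
    constructor
    · rintro ⟨h1, h2, h3⟩
      exact ⟨(hFn γ).2 ⟨⟨by linarith, by linarith⟩, h3⟩, h1, h2⟩
    · rintro ⟨h1, h2, h3⟩
      exact ⟨h2, h3, ((hFn γ).1 h1).2⟩
  obtain ⟨tm, htm⟩ : ∃ tm : ℝ → ℂ, tm = fun γ => (mz γ : ℂ) * (deriv riemannZeta (1 / 2 + γ * I) *
        (om0 δ (1 / 2 + γ * I) * GK H t (1 / 2 + γ * I))) := ⟨_, rfl⟩
  have hres' : rectI f (-(1 / 2)) (3 / 2) v w = 2 * Real.pi * I * ∑ γ ∈ Fn, tm γ := by
    rw [hres, htm]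
  have hSS : SSK T δ H t = ∑ γ ∈ Fn.filter (fun γ => T / 2 < γ ∧ γ < 4 * T), tm γ := by
    unfold SSK
    rw [hzset, finsum_mem_coe_finset]
    apply Finset.sum_congr rfl
    intro γ _
    rw [htm]
    ring
  have hsplit := Finset.sum_filter_add_sum_filter_not Fn (fun γ => T / 2 < γ ∧ γ < 4 * T) tm
  obtain ⟨D1, hD1⟩ : ∃ D1 : ℂ, D1 = ∑ γ ∈ Fn.filter (fun γ => ¬ (T / 2 < γ ∧ γ < 4 * T)), tm γ :=
    ⟨_, rfl⟩
  rw [← hSS, ← hD1] at hsplit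
  clear hSS hzset hres
  obtain ⟨E, hE⟩ : ∃ E : ℝ, E = K2 / T ^ 7 := ⟨_, rfl⟩
  have hE0 : 0 < E := by rw [hE]; positivity
  rw [← hE] at hbox
  -- bound for D1
  have hD1b : ‖D1‖ ≤ 6 * K * T * E := by
    rw [hD1]
    have hS : ∀ γ ∈ Fn.filter (fun γ => ¬ (T / 2 < γ ∧ γ < 4 * T)),
        v ≤ γ ∧ γ ≤ w ∧ (γ ≤ T / 2 ∨ 4 * T ≤ γ) := by
      intro γ hγ
      rw [Finset.mem_filter] at hγ
      obtain ⟨⟨h2, h3⟩, h4⟩ := (hFn γ).1 hγ.1
      refine ⟨h2, h3, ?_⟩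
      by_cases h6 : T / 2 < γ
      · exact Or.inr (not_lt.1 fun h => hγ.2 ⟨h6, h⟩)
      · exact Or.inl (not_lt.1 h6)
    apply ends_bound hK0 hT40 hTm hmult hv1 hw2 hE0 _ hS
    intro γ hγ
    obtain ⟨h2, h3, h4⟩ := hS γ hγ
    rw [htm]
    simp only
    rw [norm_mul, Complex.norm_natCast, mz_eq]
    have e1 : (1/2 + γ * I : ℂ).re = 1/2 := by simp
    have e2 : (1/2 + γ * I : ℂ).im = γ := by simp
    have h5 : T / 4 ≤ |γ - t| := h4.elim (d1 γ) (d2 γ)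
    have h6 := (hbox (1/2 + γ * I) (by rw [e1]; norm_num) (by rw [e1]; norm_num)
      (by rw [e2]; exact le_trans (by norm_num) (hv3.trans h2)) (by rw [e2]; exact h3.trans hw5)
      (by rw [e2]; exact h5)).1
    exact mul_le_mul_of_nonneg_left h6 (by positivity)
  clear hmult hTm hTm4 hD1
  -- pieces of the boundary
  have hfb : ∀ (s : ℂ) (b : ℝ), 0 ≤ b → -(1 / 2) ≤ s.re → s.re ≤ 3 / 2 → v ≤ s.im → s.im ≤ w →
      T / 4 ≤ |s.im - t| → ‖logDeriv riemannZeta s‖ ≤ b → ‖f s‖ ≤ (b + 1) * E := by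
    intro s b hb a1 a2 a3 a4 a5 a6
    rw [hf]
    exact (hbox s a1 a2 (le_trans (by norm_num) (hv3.trans a3)) (a4.trans hw5) a5).2.2 b hb a6
  have hcL : ContinuousOn (fun y : ℝ => f (((-(1 / 2) : ℝ) : ℂ) + y * I)) (Icc v w) :=
    hcont.comp (by fun_prop) (fun y hy => mem_left (by norm_num) hy)
  have hintL : ∀ p q : ℝ, p ∈ Icc v w → q ∈ Icc v w →
      IntervalIntegrable (fun y : ℝ => f (((-(1 / 2) : ℝ) : ℂ) + y * I)) volume p q := by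
    intro p q hp hq
    exact (hcL.mono (uIcc_subset_Icc hp hq)).intervalIntegrable
  have mv : v ∈ Icc v w := ⟨le_rfl, hvw⟩
  have mw : w ∈ Icc v w := ⟨hvw, le_rfl⟩
  have m1 : T / 2 ∈ Icc v w := ⟨by linarith, by linarith⟩
  have m2 : 4 * T ∈ Icc v w := ⟨by linarith, by linarith⟩
  have hL : (∫ y in v..w, f (((-(1 / 2) : ℝ) : ℂ) + y * I)) =
      (∫ y in v..(T/2), f (((-(1 / 2) : ℝ) : ℂ) + y * I)) +
      (∫ y in (T/2)..(4*T), f (((-(1 / 2) : ℝ) : ℂ) + y * I)) +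
      ∫ y in (4*T)..w, f (((-(1 / 2) : ℝ) : ℂ) + y * I) := by
    rw [integral_add_adjacent_intervals (hintL _ _ mv m1) (hintL _ _ m1 m2),
      integral_add_adjacent_intervals (hintL _ _ mv m2) (hintL _ _ m2 mw)]
  have hCoT : 0 ≤ Co * T := by positivity
  have hpt : ∀ y ∈ Icc v w, T / 4 ≤ |y - t| →
      ‖f (((-(1 / 2) : ℝ) : ℂ) + y * I)‖ ≤ (Co * T + 1) * E := by
    intro y hy h1
    have e1 : (((-(1 / 2) : ℝ) : ℂ) + y * I : ℂ).re = -(1 / 2) := by simp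
    have e2 : (((-(1 / 2) : ℝ) : ℂ) + y * I : ℂ).im = y := by simp
    exact hfb _ (Co * T) hCoT (by rw [e1]) (by rw [e1]; norm_num)
      (by rw [e2]; exact hy.1) (by rw [e2]; exact hy.2) (by rw [e2]; exact h1)
      (hleft T y (by linarith) (hv3.trans hy.1) (hy.2.trans hw5))
  have s3 := piece_bound (f := fun y : ℝ => f (((-(1 / 2) : ℝ) : ℂ) + y * I)) (p := v)
    (q := T / 2) m1.1 (by linarith) (by positivity)
    (fun y hy => hpt y ⟨hy.1, hy.2.trans m1.2⟩ (d1 y hy.2))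
  have s4 := piece_bound (f := fun y : ℝ => f (((-(1 / 2) : ℝ) : ℂ) + y * I)) (p := 4 * T)
    (q := w) m2.2 (by linarith) (by positivity)
    (fun y hy => hpt y ⟨m2.1.trans hy.1, hy.2⟩ (d2 y hy.1))
  have hhor : ∀ y ∈ Icc v w, T / 4 ≤ |y - t| →
      (∀ x ∈ Icc (-(1/2) : ℝ) (3/2), ‖logDeriv riemannZeta (x + y * I)‖ ≤ Cg * T ^ 2) →
      ‖∫ x in (-(1 / 2) : ℝ)..(3 / 2), f (x + y * I)‖ ≤ 2 * ((Cg * T ^ 2 + 1) * E) := by
    intro y hy h1 h2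
    apply side_bound (f := fun x : ℝ => f (x + y * I))
    intro x hx
    have e1 : (x + y * I : ℂ).re = x := by simp
    have e2 : (x + y * I : ℂ).im = y := by simp
    exact hfb _ (Cg * T ^ 2) (by positivity) (by rw [e1]; exact hx.1)
      (by rw [e1]; exact hx.2) (by rw [e2]; exact hy.1) (by rw [e2]; exact hy.2)
      (by rw [e2]; exact h1) (h2 x hx)
  have s5 := hhor v mv (d1 v m1.1) (fun x hx => (hvx x hx).2)
  have s6 := hhor w mw (d2 w m2.2) (fun x hx => (hwx x hx).2)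
  clear hhor hpt hfb hbox hvx hwx hleft hgood hcL hcont hintL
  -- the right line
  obtain ⟨g, hg⟩ : ∃ g : ℝ → ℂ, g = fun y : ℝ =>
      LSeries (fun n => ((bn A B n : ℝ) : ℂ)) ((3 / 2 : ℝ) + y * I) *
        om0 δ ((3 / 2 : ℝ) + y * I) * GK H t ((3 / 2 : ℝ) + y * I) := ⟨_, rfl⟩
  rw [← hg] at hgint
  have hSE' : SEK A B δ H t = (1 / (2 * Real.pi) : ℂ) * ∫ y : ℝ, g y := by
    rw [hSE, hg]
    rfl
  have hgf : (∫ y in v..w, g y) = ∫ y in v..w, f (((3 / 2 : ℝ) : ℂ) + y * I) := by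
    apply intervalIntegral.integral_congr
    intro y _
    rw [hg, hf]
    simp only
    rw [hLS _ (by simp; norm_num)]
  have htail : ‖(∫ y : ℝ, g y) - ∫ y in v..w, g y‖ ≤ 4 * (M2 * (K2 / T ^ 10)) := by
    apply tail_bound hgint (t := t) (by positivity) hvw
    intro y hy
    have e1 : (((3 / 2 : ℝ) : ℂ) + y * I : ℂ).re = 3 / 2 := by simp
    have e2 : (((3 / 2 : ℝ) : ℂ) + y * I : ℂ).im = y := by simp
    have h1 : T / 4 ≤ |y - t| := by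
      by_cases h2 : v < y
      · have h3 : w < y := by
          by_contra h4
          exact hy ⟨h2, not_lt.1 h4⟩
        exact d2 y (m2.2.trans h3.le)
      · exact d1 y ((not_lt.1 h2).trans m1.1)
    have h2 := hsm' (((3 / 2 : ℝ) : ℂ) + y * I) (by rw [e1]; norm_num) (by rw [e1])
      (Or.inr e1) (by rw [e2]; exact h1)
    rw [e2] at h2
    have h3 := norm_LSeries_le hsum32 (((3 / 2 : ℝ) : ℂ) + y * I) e1
    rw [← hM2] at h3
    rw [hg]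
    simp only
    rw [mul_assoc, norm_mul, mul_assoc M2]
    exact mul_le_mul h3 h2 (norm_nonneg _) hM20
  -- assembly
  rw [← hsplit] at hres'
  unfold rectI at hres'
  rw [hL, ← hgf] at hres'
  have hIL : ILK A B T δ H t = (1 / (2 * Real.pi) : ℂ) *
      ∫ y in (T/2)..(4*T), f (((-(1 / 2) : ℝ) : ℂ) + y * I) := by
    unfold ILK
    congr 1
    apply intervalIntegral.integral_congr
    intro y _
    rw [hf]
    push_cast
    rfl
  rw [hSE', hIL]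
  obtain ⟨X1, hX1⟩ : ∃ X : ℂ, X = ∫ x in (-(1 / 2) : ℝ)..(3 / 2), f (x + v * I) := ⟨_, rfl⟩
  obtain ⟨X2, hX2⟩ : ∃ X : ℂ, X = ∫ x in (-(1 / 2) : ℝ)..(3 / 2), f (x + w * I) := ⟨_, rfl⟩
  obtain ⟨X5, hX5⟩ : ∃ X : ℂ, X = ∫ y in v..(T/2), f (((-(1 / 2) : ℝ) : ℂ) + y * I) := ⟨_, rfl⟩
  obtain ⟨X6, hX6⟩ : ∃ X : ℂ, X = ∫ y in (4*T)..w, f (((-(1 / 2) : ℝ) : ℂ) + y * I) := ⟨_, rfl⟩
  obtain ⟨Y1, hY1⟩ : ∃ X : ℂ, X = ∫ y in (T/2)..(4*T), f (((-(1 / 2) : ℝ) : ℂ) + y * I) := ⟨_, rfl⟩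
  obtain ⟨Y2, hY2⟩ : ∃ X : ℂ, X = ∫ y in v..w, g y := ⟨_, rfl⟩
  obtain ⟨Y3, hY3⟩ : ∃ X : ℂ, X = (∫ y : ℝ, g y) - ∫ y in v..w, g y := ⟨_, rfl⟩
  have hY3' : (∫ y : ℝ, g y) = Y3 + Y2 := by rw [hY3, hY2]; ring
  rw [hY3', ← hY1]
  rw [← hX1, ← hX2, ← hX5, ← hX6, ← hY1, ← hY2] at hres'
  rw [← hX1] at s5
  rw [← hX2] at s6
  rw [← hX5] at s3
  rw [← hX6] at s4
  rw [← hY3] at htail
  have key : (1 / (2 * Real.pi) : ℂ) * (Y3 + Y2) - (1 / (2 * Real.pi) : ℂ) * Y1 - SSK T δ H t =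
      D1 + (1 / (2 * Real.pi) : ℂ) * (Y3 + I * (X1 - X2) + X5 + X6) := by
    have hpi : (Real.pi : ℂ) ≠ 0 := by exact_mod_cast Real.pi_ne_zero
    obtain ⟨p, hp⟩ : ∃ p : ℂ, p = 1 / (2 * Real.pi) := ⟨_, rfl⟩
    rw [← hp]
    have hp2 : 2 * Real.pi * p = 1 := by
      rw [hp]; field_simp
    have hI : I * I = -1 := I_mul_I
    linear_combination (-p * I) * hres' +
      (p * (Y2 - Y1 - X5 - X6) - 2 * Real.pi * p * (SSK T δ H t + D1)) * hI +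
      (SSK T δ H t + D1) * hp2
  rw [key]
  exact final_arith (by linarith) hK2 hK0 hCg hCo hM20 hE hTQ hD1b htail s5 s6 s3 s4

end Pool.Agent.Lib.MP_6bc78b_nt.GP.H70K
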