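import Pool.Agent.Lib.MP_6bc78b_nt.GP.H19.Med8

/-! Project GP9 (MP_6bc78b_nt), rows MED9L and MED9H: the common part (thresholds and powers which
depend on the blocks). Compare `GP.H19.Med8`. -/

set_option autoImplicit false

open Complex Filter Topology MeasureTheory ArithmeticFunction Set
open scoped ENNReal

namespace Pool.Agent.Lib.MP_6bc78b_nt.GP.H70M

open Pool.Agent.Lib.MP_6bc78b_nt.MS Pool.Agent.Lib.MP_6bc78b_nt.MS.P1
  Pool.Agent.Lib.MP_6bc78b_nt.GP.G7 Pool.Agent.Lib.MP_6bc78b_nt.GP.G8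
open Pool.Agent.Lib.MP_6bc78b_nt.GP.G8.H19 (Qp_cont Mb_cont Wq_block term_int)

/-! ## The pointwise bound -/

/-- As `H19.point`, with thresholds and powers that depend on the block. -/
lemma point2 {n1 n2 : ℕ} {W : ℝ} {VA VB : ℕ → ℝ} {Q M R : ℕ → ℂ} {l : ℕ → ℕ → ℕ}
    (hW : 1 ≤ W) (hVA : ∀ w, 0 < VA w) (h1 : ∃ w < n1, VA w < ‖R w‖ ^ 2)
    (h2 : ∀ v < n2, ‖Q v‖ ^ 2 ≤ VB v) :
    ‖(1 / (W : ℂ)) * ∑ v ∈ Finset.range n2, Q v * M v‖ ^ 2 ≤
      ∑ v ∈ Finset.range n2, ∑ w ∈ Finset.range n1,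
        (n2 * VB v / VA w ^ l v w) * ‖M v * R w ^ l v w‖ ^ 2 := by
  have hW0 : 0 < W := by linarith
  have a1 : ‖(1 / (W : ℂ)) * ∑ v ∈ Finset.range n2, Q v * M v‖ ≤
      ∑ v ∈ Finset.range n2, ‖Q v * M v‖ := by
    rw [norm_mul, norm_div, norm_one, Complex.norm_real, Real.norm_of_nonneg hW0.le]
    calc 1 / W * ‖∑ v ∈ Finset.range n2, Q v * M v‖
        ≤ 1 * ‖∑ v ∈ Finset.range n2, Q v * M v‖ := by
          apply mul_le_mul_of_nonneg_right _ (norm_nonneg _)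
          rw [div_le_one hW0]; exact hW
      _ = ‖∑ v ∈ Finset.range n2, Q v * M v‖ := one_mul _
      _ ≤ _ := norm_sum_le _ _
  have a2 : (∑ v ∈ Finset.range n2, ‖Q v * M v‖) ^ 2 ≤
      n2 * ∑ v ∈ Finset.range n2, ‖Q v * M v‖ ^ 2 := by
    have := sq_sum_le_card_mul_sum_sq (s := Finset.range n2) (f := fun v => ‖Q v * M v‖)
    simpa using this
  obtain ⟨w0, hw0, hR⟩ := h1
  have a3 : ∀ v ∈ Finset.range n2, n2 * ‖Q v * M v‖ ^ 2 ≤
      ∑ w ∈ Finset.range n1, (n2 * VB v / VA w ^ l v w) * ‖M v * R w ^ l v w‖ ^ 2 := by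
    intro v hv
    have hq := h2 v (Finset.mem_range.1 hv)
    have hVB0 : 0 ≤ VB v := (by positivity : 0 ≤ ‖Q v‖ ^ 2).trans hq
    have hVA0 := hVA w0
    have b1 : ‖M v‖ ^ 2 ≤ ‖M v * R w0 ^ l v w0‖ ^ 2 / VA w0 ^ l v w0 := by
      rw [le_div_iff₀ (by positivity), norm_mul, norm_pow, mul_pow]
      apply mul_le_mul_of_nonneg_left _ (by positivity)
      calc VA w0 ^ l v w0 ≤ (‖R w0‖ ^ 2) ^ l v w0 := pow_le_pow_left₀ hVA0.le hR.le _
        _ = (‖R w0‖ ^ l v w0) ^ 2 := by rw [← pow_mul, ← pow_mul, mul_comm]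
    calc n2 * ‖Q v * M v‖ ^ 2 = n2 * (‖Q v‖ ^ 2 * ‖M v‖ ^ 2) := by
          rw [norm_mul, mul_pow]
      _ ≤ n2 * (VB v * (‖M v * R w0 ^ l v w0‖ ^ 2 / VA w0 ^ l v w0)) := by
          apply mul_le_mul_of_nonneg_left _ (Nat.cast_nonneg _)
          exact mul_le_mul hq b1 (by positivity) hVB0
      _ = (n2 * VB v / VA w0 ^ l v w0) * ‖M v * R w0 ^ l v w0‖ ^ 2 := by ring
      _ ≤ _ := Finset.single_le_sum
          (f := fun w => (n2 * VB v / VA w ^ l v w) * ‖M v * R w ^ l v w‖ ^ 2)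
          (fun w _ => by have := hVA w; positivity) (Finset.mem_range.2 hw0)
  calc ‖(1 / (W : ℂ)) * ∑ v ∈ Finset.range n2, Q v * M v‖ ^ 2
      ≤ (∑ v ∈ Finset.range n2, ‖Q v * M v‖) ^ 2 :=
        pow_le_pow_left₀ (norm_nonneg _) a1 2
    _ ≤ n2 * ∑ v ∈ Finset.range n2, ‖Q v * M v‖ ^ 2 := a2
    _ = ∑ v ∈ Finset.range n2, n2 * ‖Q v * M v‖ ^ 2 := Finset.mul_sum _ _ _
    _ ≤ _ := Finset.sum_le_sum a3

/-! ## The common part of all rows MED: from the pairs of blocks to the whole -/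

/-- If every pair of blocks contributes at most `X`, the whole is at most `n2 * n1 * X`. -/
lemma assemble {a ε η κ T h P₁ P₂ X : ℝ} {n1 K : ℕ} {VA VB : ℕ → ℝ} {l : ℕ → ℕ → ℕ}
    (hW : 1 ≤ Wb P₂ κ K) (hVA : ∀ w, 0 < VA w) (hVB : ∀ v, 0 ≤ VB v)
    (hterm : ∀ v < nb P₂ κ K, ∀ w < n1,
      ENNReal.ofReal (nb P₂ κ K * VB v / VA w ^ l v w) *
      ∫⁻ t : ℝ, ENNReal.ofReal (‖Mb ε η (yb P₂ κ v) T t * Qb P₁ κ w t ^ l v w‖ ^ 2 *
        Real.exp (-(a * h / T * |t|))) ≤ ENNReal.ofReal X) :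
    ∫⁻ t in {t : ℝ | (∃ v < n1, VA v < ‖Qb P₁ κ v t‖ ^ 2) ∧
        ∀ v < nb P₂ κ K, ‖Qb P₂ κ v t‖ ^ 2 ≤ VB v},
      ENNReal.ofReal (‖Fb ε η κ K P₂ T t‖ ^ 2 * Real.exp (-(a * h / T * |t|))) ≤
      ENNReal.ofReal (nb P₂ κ K * n1 * X) := by
  set n2 : ℕ := nb P₂ κ K with hn2
  set cf : ℕ → ℕ → ℝ := fun v w => n2 * VB v / VA w ^ l v w with hcf
  have hcf0 : ∀ v w, 0 ≤ cf v w := by
    intro v w
    simp only [hcf]
    have h1 := hVB v
    have h2 := hVA w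
    positivity
  have hm : ∀ v w : ℕ, Measurable (fun t : ℝ => ENNReal.ofReal (cf v w) *
      ENNReal.ofReal (‖Mb ε η (yb P₂ κ v) T t * Qb P₁ κ w t ^ l v w‖ ^ 2 *
        Real.exp (-(a * h / T * |t|)))) := by
    intro v w
    have c1 := Mb_cont ε η (yb P₂ κ v) T
    have c2 : Continuous (Qb P₁ κ w) := Qp_cont _ _
    have c3 : Continuous (fun t : ℝ => ‖Mb ε η (yb P₂ κ v) T t *
        Qb P₁ κ w t ^ l v w‖ ^ 2 * Real.exp (-(a * h / T * |t|))) := by
      fun_prop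
    exact (measurable_const.mul (ENNReal.measurable_ofReal.comp c3.measurable))
  calc ∫⁻ t in {t : ℝ | (∃ v < n1, VA v < ‖Qb P₁ κ v t‖ ^ 2) ∧
        ∀ v < n2, ‖Qb P₂ κ v t‖ ^ 2 ≤ VB v},
      ENNReal.ofReal (‖Fb ε η κ K P₂ T t‖ ^ 2 * Real.exp (-(a * h / T * |t|)))
      ≤ ∫⁻ t in {t : ℝ | (∃ v < n1, VA v < ‖Qb P₁ κ v t‖ ^ 2) ∧
        ∀ v < n2, ‖Qb P₂ κ v t‖ ^ 2 ≤ VB v},
        ∑ v ∈ Finset.range n2, ∑ w ∈ Finset.range n1, ENNReal.ofReal (cf v w) *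
          ENNReal.ofReal (‖Mb ε η (yb P₂ κ v) T t * Qb P₁ κ w t ^ l v w‖ ^ 2 *
            Real.exp (-(a * h / T * |t|))) := by
        apply setLIntegral_mono
        · exact Finset.measurable_sum _ fun v _ => Finset.measurable_sum _ fun w _ => hm v w
        · intro t ht
          have hp := point2 (l := l) (M := fun v => Mb ε η (yb P₂ κ v) T t) hW hVA ht.1 ht.2
          have hE := Real.exp_pos (-(a * h / T * |t|))
          have e1 : ∑ v ∈ Finset.range n2, ∑ w ∈ Finset.range n1, ENNReal.ofReal (cf v w) *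
              ENNReal.ofReal (‖Mb ε η (yb P₂ κ v) T t * Qb P₁ κ w t ^ l v w‖ ^ 2 *
                Real.exp (-(a * h / T * |t|))) =
              ENNReal.ofReal ((∑ v ∈ Finset.range n2, ∑ w ∈ Finset.range n1,
                cf v w * ‖Mb ε η (yb P₂ κ v) T t * Qb P₁ κ w t ^ l v w‖ ^ 2) *
                Real.exp (-(a * h / T * |t|))) := by
            rw [Finset.sum_mul, ENNReal.ofReal_sum_of_nonneg (fun v _ =>
              mul_nonneg (Finset.sum_nonneg fun w _ => mul_nonneg (hcf0 v w) (by positivity))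
                hE.le)]
            apply Finset.sum_congr rfl
            intro v _
            rw [Finset.sum_mul, ENNReal.ofReal_sum_of_nonneg (fun w _ =>
              mul_nonneg (mul_nonneg (hcf0 v w) (by positivity)) hE.le)]
            apply Finset.sum_congr rfl
            intro w _
            rw [mul_assoc, ENNReal.ofReal_mul (hcf0 v w)]
          rw [e1]
          apply ENNReal.ofReal_le_ofReal
          apply mul_le_mul_of_nonneg_right _ hE.le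
          exact hp
    _ ≤ ∫⁻ t : ℝ, ∑ v ∈ Finset.range n2, ∑ w ∈ Finset.range n1, ENNReal.ofReal (cf v w) *
          ENNReal.ofReal (‖Mb ε η (yb P₂ κ v) T t * Qb P₁ κ w t ^ l v w‖ ^ 2 *
            Real.exp (-(a * h / T * |t|))) := setLIntegral_le_lintegral _ _
    _ = ∑ v ∈ Finset.range n2, ∑ w ∈ Finset.range n1, ENNReal.ofReal (cf v w) *
          ∫⁻ t : ℝ, ENNReal.ofReal (‖Mb ε η (yb P₂ κ v) T t *
            Qb P₁ κ w t ^ l v w‖ ^ 2 * Real.exp (-(a * h / T * |t|))) := by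
        rw [lintegral_finsetSum _ fun v _ => Finset.measurable_sum _ fun w _ => hm v w]
        apply Finset.sum_congr rfl
        intro v _
        rw [lintegral_finsetSum _ fun w _ => hm v w]
        apply Finset.sum_congr rfl
        intro w _
        rw [lintegral_const_mul' _ _ ENNReal.ofReal_ne_top]
    _ ≤ ∑ _v ∈ Finset.range n2, ∑ _w ∈ Finset.range n1, ENNReal.ofReal X :=
        Finset.sum_le_sum fun v hv => Finset.sum_le_sum fun w hw =>
          hterm v (Finset.mem_range.1 hv) w (Finset.mem_range.1 hw)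
    _ = ENNReal.ofReal (n2 * n1 * X) := by
        rw [Finset.sum_const, Finset.sum_const, Finset.card_range, Finset.card_range,
          nsmul_eq_mul, nsmul_eq_mul]
        have e1 : ((n2 : ℕ) : ℝ≥0∞) = ENNReal.ofReal n2 := (ENNReal.ofReal_natCast n2).symm
        have e2 : ((n1 : ℕ) : ℝ≥0∞) = ENNReal.ofReal n1 := (ENNReal.ofReal_natCast n1).symm
        rw [e1, e2, ← ENNReal.ofReal_mul (Nat.cast_nonneg _), ← ENNReal.ofReal_mul
          (Nat.cast_nonneg _)]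
        congr 1
        ring

end Pool.Agent.Lib.MP_6bc78b_nt.GP.H70M
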