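import Pool.Agent.Lib.MP_6bc78b_nt.GP.H62.Defs9a
import Pool.Agent.Lib.MP_6bc78b_nt.GP.H70.MedC

/-! Project GP9 (MP_6bc78b_nt), row MED9H: from the middle to the large scale of primes.
Compare `GP.H19.Med8`. -/

set_option autoImplicit false

open Complex Filter Topology MeasureTheory ArithmeticFunction Set
open scoped ENNReal

namespace Pool.Agent.Lib.MP_6bc78b_nt.GP.H70M

open Pool.Agent.Lib.MP_6bc78b_nt.MS Pool.Agent.Lib.MP_6bc78b_nt.MS.P1
  Pool.Agent.Lib.MP_6bc78b_nt.GP.G7 Pool.Agent.Lib.MP_6bc78b_nt.GP.G8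
  Pool.Agent.Lib.MP_6bc78b_nt.GP.G9
open Pool.Agent.Lib.MP_6bc78b_nt.GP.G8.H19 (Qp_cont Mb_cont Wq_block term_int)

/-! ## Numbers -/

lemma num_term {u s : ℝ} {l : ℕ} (hl1 : u ≤ l * s) (hl2 : l * s ≤ u + s)
    (h4 : 4 * (l : ℝ) ≤ Real.exp (s / 16)) :
    Real.exp (-(7 / 8 * u)) / Real.exp (-(3 / 4 * s)) ^ l *
      ((4 * l / Real.exp s) ^ l * Real.exp u + (2 * (l : ℝ)) ^ l) ≤
      2 * Real.exp (-(u / 16) + 13 / 16 * s) := by
  have hl0 : (0 : ℝ) ≤ l := Nat.cast_nonneg l
  have h5 : (4 * (l : ℝ)) ^ l ≤ Real.exp ((u + s) / 16) := by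
    calc (4 * (l : ℝ)) ^ l ≤ Real.exp (s / 16) ^ l := pow_le_pow_left₀ (by positivity) h4 l
      _ = Real.exp (l * s / 16) := by rw [← Real.exp_nat_mul]; congr 1; ring
      _ ≤ _ := Real.exp_le_exp.2 (by linarith)
  have h6 : (4 * (l : ℝ) / Real.exp s) ^ l * Real.exp u ≤ Real.exp ((u + s) / 16) := by
    have e1 : (4 * (l : ℝ) / Real.exp s) ^ l * Real.exp u =
        (4 * (l : ℝ)) ^ l * Real.exp (u - l * s) := by
      rw [div_pow, Real.exp_sub, ← Real.exp_nat_mul]
      ring
    rw [e1]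
    have e2 : Real.exp (u - l * s) ≤ 1 := Real.exp_le_one_iff.2 (by linarith)
    calc (4 * (l : ℝ)) ^ l * Real.exp (u - l * s) ≤ (4 * (l : ℝ)) ^ l * 1 :=
          mul_le_mul_of_nonneg_left e2 (by positivity)
      _ = (4 * (l : ℝ)) ^ l := mul_one _
      _ ≤ _ := h5
  have h7 : (2 * (l : ℝ)) ^ l ≤ Real.exp ((u + s) / 16) :=
    (pow_le_pow_left₀ (by positivity) (by linarith) l).trans h5
  have h8 : Real.exp (-(7 / 8 * u)) / Real.exp (-(3 / 4 * s)) ^ l ≤
      Real.exp (-(u / 8) + 3 / 4 * s) := by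
    rw [← Real.exp_nat_mul, ← Real.exp_sub]
    apply Real.exp_le_exp.2
    linarith
  calc Real.exp (-(7 / 8 * u)) / Real.exp (-(3 / 4 * s)) ^ l *
      ((4 * l / Real.exp s) ^ l * Real.exp u + (2 * (l : ℝ)) ^ l)
      ≤ Real.exp (-(u / 8) + 3 / 4 * s) * (Real.exp ((u + s) / 16) + Real.exp ((u + s) / 16)) :=
        mul_le_mul h8 (add_le_add h6 h7) (by positivity) (Real.exp_pos _).le
    _ = 2 * (Real.exp (-(u / 8) + 3 / 4 * s) * Real.exp ((u + s) / 16)) := by ring
    _ = 2 * Real.exp (-(u / 16) + 13 / 16 * s) := by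
        rw [← Real.exp_add]
        congr 2
        ring

lemma ev_num (K : ℕ) {κ E δ : ℝ} (hκ : 0 < κ) (hE : 0 < E) (hδ : 0 < δ) :
    ∀ᶠ z : ℝ in atTop, ∀ n1 n2 : ℕ, (n1 : ℝ) ≤ K * (16 * Real.log z) / κ + 1 →
      (n2 : ℝ) ≤ K * (16 * z) / κ + 1 →
      (n2 : ℝ) ^ 2 * n1 * (E * (z * Real.exp (-z + (17 + 16 * K) * Real.log z))) ≤ δ := by
  set G : ℝ := 16 * K / κ + 1 with hG
  have hG0 : 0 < G := by positivity
  have h1 := (Real.tendsto_pow_mul_exp_neg_atTop_nhds_zero (21 + 16 * K)).const_mul (G ^ 3 * E)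
  rw [mul_zero] at h1
  filter_upwards [h1.eventually (gt_mem_nhds hδ), eventually_ge_atTop 1] with z hz hz1 n1 n2 h2 h3
  have hz0 : 0 < z := by linarith
  have hlog : Real.log z ≤ z := Real.log_le_self hz0.le
  have b2 : (n2 : ℝ) ≤ G * z := by
    refine h3.trans ?_
    have : G * z = K * (16 * z) / κ + z := by rw [hG]; ring
    rw [this]
    linarith
  have b1 : (n1 : ℝ) ≤ G * z := by
    refine h2.trans ?_
    have e1 : G * z = K * (16 * z) / κ + z := by rw [hG]; ring
    rw [e1]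
    have e2 : K * (16 * Real.log z) / κ ≤ K * (16 * z) / κ := by gcongr
    linarith
  have e3 : Real.exp (-z + (17 + 16 * K) * Real.log z) = Real.exp (-z) * z ^ (17 + 16 * K) := by
    rw [Real.exp_add]
    congr 1
    have : (17 + 16 * (K : ℝ)) * Real.log z = ((17 + 16 * K : ℕ) : ℝ) * Real.log z := by
      push_cast
      ring
    rw [this, Real.exp_nat_mul, Real.exp_log hz0]
  calc (n2 : ℝ) ^ 2 * n1 * (E * (z * Real.exp (-z + (17 + 16 * K) * Real.log z)))
      ≤ (G * z) ^ 2 * (G * z) * (E * (z * Real.exp (-z + (17 + 16 * K) * Real.log z))) := by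
        gcongr
    _ = G ^ 3 * E * (z ^ (21 + 16 * K) * Real.exp (-z)) := by
        rw [e3, show 21 + 16 * K = (17 + 16 * K) + 4 by ring, pow_add]
        ring
    _ ≤ δ := hz.le

/-! ## The row -/

theorem med9h (hX : CMB2XStatement) (hBX : BASXStatement) : MED9HStatement := by
  intro a ε η κ δ K ha hε hε1 hη hη1 hκ hκ2 hδ hK
  obtain ⟨C, hC, hcm⟩ := hX
  obtain ⟨-, hbet, hffb, -⟩ := hBX
  set B : ℝ := 1 / (a * ε) + 1 + Real.log (1 / ε ^ 2) with hB
  have hl0 : 0 ≤ Real.log (1 / ε ^ 2) := by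
    apply Real.log_nonneg
    rw [le_div_iff₀ (by positivity)]
    nlinarith
  have hB0 : 0 < B := by rw [hB]; positivity
  have hz : Tendsto (fun T : ℝ => Real.log (Real.log (Real.log T))) atTop atTop :=
    Real.tendsto_log_atTop.comp (Real.tendsto_log_atTop.comp Real.tendsto_log_atTop)
  have hζ : Tendsto (fun T : ℝ => Real.log (Real.log (Real.log (Real.log T)))) atTop atTop :=
    Real.tendsto_log_atTop.comp hz
  have hy : Tendsto (fun T : ℝ => Real.log (Real.log T)) atTop atTop :=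
    Real.tendsto_log_atTop.comp Real.tendsto_log_atTop
  have ev2 := hz.eventually (ev_num K (E := 16 * C * B * 2) hκ (by positivity) hδ)
  have ev3 := hz.eventually_ge_atTop 8
  have ev1 := hζ.eventually_ge_atTop (17 + 16 * (K : ℝ))
  have ev4 : ∀ᶠ T : ℝ in atTop, a * Real.log T ^ 2 / T ≤ 1 := by
    have h1 : Tendsto (fun T : ℝ => Real.log T ^ 2 / T) atTop (𝓝 0) := by
      have := (isLittleO_log_rpow_rpow_atTop (2 : ℝ) (one_pos)).tendsto_div_nhds_zero
      refine this.congr (fun T => ?_)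
      rw [Real.rpow_one]
      norm_num
    have h2 := (h1.const_mul a)
    rw [mul_zero] at h2
    filter_upwards [h2.eventually (gt_mem_nhds one_pos)] with T hT
    rw [mul_div_assoc]
    exact hT.le
  have ev5 := hy.eventually_ge_atTop 1
  have ev6 := eventually_ge_atTop (max 11 (1 / ε))
  obtain ⟨T0, hT0⟩ := eventually_atTop.1
    (ev1.and (ev2.and (ev3.and (ev4.and (ev5.and ev6)))))
  refine ⟨max T0 11, lt_of_lt_of_le (by norm_num) (le_max_right _ _), ?_⟩
  intro T h hT hh1 hhL hW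
  obtain ⟨g1, g2, g3, g4, g5, g6⟩ := hT0 T ((le_max_left _ _).trans hT)
  have hT11 : 11 ≤ T := (le_max_left _ _).trans g6
  have hTε : 1 / ε ≤ T := (le_max_right _ _).trans g6
  have hTp : 0 < T := by linarith
  set z : ℝ := Real.log (Real.log (Real.log T)) with hzdef
  set ζ : ℝ := Real.log z with hζdef
  set L : ℝ := Real.log T with hL
  have hL0 : 0 < L := Real.log_pos (by linarith)
  have hz0 : 0 < z := by linarith
  have hK0 : (0 : ℝ) ≤ K := Nat.cast_nonneg K
  have hζ17 : 17 ≤ ζ := by linarith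
  have hζ0 : 0 < ζ := by linarith
  have hlL : 0 < Real.log (Real.log T) := by linarith
  have hzexp : Real.exp ζ = z := Real.exp_log hz0
  have hPM : PM T = Real.exp (16 * ζ) := by
    have e1 : Real.exp (16 * ζ) = z ^ 16 := by
      rw [mul_comm, Real.exp_mul, hzexp]
      norm_num
    rw [e1]; rfl
  have hlogPM : Real.log (PM T) = 16 * ζ := by rw [hPM, Real.log_exp]
  have hPB : PB T = Real.exp (16 * z) := by
    have e1 : Real.exp (16 * z) = Real.log (Real.log T) ^ 16 := by
      rw [mul_comm, Real.exp_mul, hzdef, Real.exp_log hlL]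
      norm_num
    rw [e1]; rfl
  have hlogPB : Real.log (PB T) = 16 * z := by rw [hPB, Real.log_exp]
  have hn1b : (nb (PM T) κ K : ℝ) ≤ K * (16 * ζ) / κ + 1 := by
    rw [nb, hlogPM]
    exact (Nat.ceil_lt_add_one (by positivity)).le
  have hn2b : (nb (PB T) κ K : ℝ) ≤ K * (16 * z) / κ + 1 := by
    rw [nb, hlogPB]
    exact (Nat.ceil_lt_add_one (by positivity)).le
  -- the exponents
  set s : ℕ → ℝ := fun w => 16 * ζ + κ * w with hs
  set u : ℕ → ℝ := fun v => 16 * z + κ * v with hu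
  have hybM : ∀ w : ℕ, yb (PM T) κ w = Real.exp (s w) := by
    intro w
    rw [yb, hPM, ← Real.exp_add]
  have hybB : ∀ v : ℕ, yb (PB T) κ v = Real.exp (u v) := by
    intro v
    rw [yb, hPB, ← Real.exp_add]
  have hs16 : ∀ w : ℕ, 16 * ζ ≤ s w := by
    intro w
    simp only [hs]
    have : 0 ≤ κ * (w : ℝ) := by positivity
    linarith
  have hu16 : ∀ v : ℕ, 16 * z ≤ u v := by
    intro v
    simp only [hu]
    have : 0 ≤ κ * (v : ℝ) := by positivity
    linarith
  have hs0 : ∀ w : ℕ, 0 < s w := fun w => by have := hs16 w; linarith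
  have hu0 : ∀ v : ℕ, 0 ≤ u v := fun v => by have := hu16 v; linarith
  have hsD : ∀ w < nb (PM T) κ K, s w ≤ (17 + 16 * K) * ζ := by
    intro w hw
    have hw' : (w : ℝ) ≤ nb (PM T) κ K := by exact_mod_cast hw.le
    have b1 : κ * (w : ℝ) ≤ K * (16 * ζ) + κ := by
      calc κ * (w : ℝ) ≤ κ * (K * (16 * ζ) / κ + 1) :=
            mul_le_mul_of_nonneg_left (hw'.trans hn1b) hκ.le
        _ = K * (16 * ζ) + κ := by field_simp
    have e1 : (17 + 16 * (K : ℝ)) * ζ = 16 * ζ + (K * (16 * ζ) + ζ) := by ring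
    rw [e1]
    simp only [hs]
    linarith
  have huD : ∀ v < nb (PB T) κ K, u v ≤ (17 + 16 * K) * z := by
    intro v hv
    have hv' : (v : ℝ) ≤ nb (PB T) κ K := by exact_mod_cast hv.le
    have b1 : κ * (v : ℝ) ≤ K * (16 * z) + κ := by
      calc κ * (v : ℝ) ≤ κ * (K * (16 * z) / κ + 1) :=
            mul_le_mul_of_nonneg_left (hv'.trans hn2b) hκ.le
        _ = K * (16 * z) + κ := by field_simp
    have e1 : (17 + 16 * (K : ℝ)) * z = 16 * z + (K * (16 * z) + z) := by ring
    rw [e1]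
    simp only [hu]
    linarith
  set l : ℕ → ℕ → ℕ := fun v w => ⌈u v / s w⌉₊ with hl
  have hl1 : ∀ v w : ℕ, u v ≤ l v w * s w := by
    intro v w
    have h1 : u v / s w ≤ l v w := Nat.le_ceil _
    rwa [div_le_iff₀ (hs0 w)] at h1
  have hlc : ∀ v w : ℕ, (l v w : ℝ) ≤ u v / s w + 1 := fun v w =>
    (Nat.ceil_lt_add_one (div_nonneg (hu0 v) (hs0 w).le)).le
  have hl2 : ∀ v w : ℕ, (l v w : ℝ) * s w ≤ u v + s w := by
    intro v w
    have h1 := mul_le_mul_of_nonneg_right (hlc v w) (hs0 w).le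
    have h2 : (u v / s w + 1) * s w = u v + s w := by
      have := (hs0 w).ne'
      field_simp
    linarith
  have hlz : ∀ v < nb (PB T) κ K, ∀ w : ℕ, 4 * (l v w : ℝ) ≤ z := by
    intro v hv w
    have h1 : u v / s w ≤ z / 16 := by
      rw [div_le_iff₀ (hs0 w)]
      have h2 := huD v hv
      have h3 : (17 + 16 * (K : ℝ)) * z ≤ z / 16 * (16 * ζ) := by nlinarith
      have h4 : z / 16 * (16 * ζ) ≤ z / 16 * s w :=
        mul_le_mul_of_nonneg_left (hs16 w) (by positivity)
      linarith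
    have h2 := hlc v w
    linarith
  have hlexp : ∀ v < nb (PB T) κ K, ∀ w : ℕ, 4 * (l v w : ℝ) ≤ Real.exp (s w / 16) := by
    intro v hv w
    refine (hlz v hv w).trans ?_
    rw [← hzexp]
    apply Real.exp_le_exp.2
    have := hs16 w
    linarith
  have hVM : ∀ w : ℕ, VM κ T w = Real.exp (-(3 / 4 * s w)) := by
    intro w
    rw [VM, hybM, ← Real.exp_mul]
    congr 1
    ring
  have hVB : ∀ v : ℕ, VB κ T v = Real.exp (-(7 / 8 * u v)) := by
    intro v
    rw [VB, hybB, ← Real.exp_mul]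
    congr 1
    ring
  -- the bound of `ff`
  have hff : ∀ m : ℕ, (m : ℝ) ≤ T / ε → |ff η T m| ≤ 4 * L ^ 2 := by
    intro m hm
    have h1 := hffb η T m (by linarith) hη
    have h2 := hbet m
    rw [abs_of_nonneg h1.1]
    refine (h1.2.trans h2.2).trans ?_
    rcases Nat.eq_zero_or_pos m with rfl | hm0
    · simp; positivity
    · have hm1 : (1 : ℝ) ≤ m := by exact_mod_cast hm0
      have h3 : Real.log m ≤ 2 * L := by
        calc Real.log m ≤ Real.log (T / ε) := Real.log_le_log (by linarith) hm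
          _ ≤ Real.log (T * T) := by
              apply Real.log_le_log (by positivity)
              rw [div_eq_mul_one_div]
              exact mul_le_mul_of_nonneg_left hTε hTp.le
          _ = 2 * L := by rw [Real.log_mul hTp.ne' hTp.ne', hL]; ring
      have h4 : 0 ≤ Real.log m := Real.log_nonneg hm1
      nlinarith
  have hb1 : a * h / T ≤ 1 := by
    refine le_trans ?_ g4
    apply div_le_div_of_nonneg_right _ hTp.le
    exact mul_le_mul_of_nonneg_left hhL ha.le
  have hmain := assemble (a := a) (ε := ε) (η := η) (κ := κ) (T := T) (h := h) (P₁ := PM T)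
    (P₂ := PB T) (X := nb (PB T) κ K * (16 * C * B * 2 *
      (z * Real.exp (-z + (17 + 16 * K) * ζ))) * L ^ 4) (n1 := nb (PM T) κ K) (K := K)
    (VA := VM κ T) (VB := VB κ T) (l := l) hW (fun w => by rw [hVM w]; positivity)
    (fun v => by rw [hVB v]; positivity) (by
    intro v hv w hw
    have hnext : yb (PM T) κ (w + 1) = yb (PM T) κ w * Real.exp κ := by
      unfold yb
      rw [mul_assoc, ← Real.exp_add]
      congr 2
      push_cast
      ring
    have hyw3 : 3 ≤ yb (PM T) κ w := by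
      rw [hybM w]
      have h1 := hs16 w
      have h2 := Real.add_one_le_exp (s w)
      linarith
    have hW1 : Wq (yb (PM T) κ w) (yb (PM T) κ (w + 1)) ≤ 1 := by
      rw [hnext]
      exact Wq_block hyw3 hκ hκ2
    have hlt : yb (PM T) κ w < yb (PM T) κ (w + 1) := by
      rw [hnext]
      have : 1 < Real.exp κ := Real.one_lt_exp_iff.2 hκ
      nlinarith
    have hy1 : 1 ≤ yb (PB T) κ v := by
      rw [hybB]
      exact Real.one_le_exp (hu0 v)
    have h1 := term_int hcm hC (k := l v w) ha hε hε1 hTp hh1 hb1 hy1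
      (by linarith : 2 ≤ yb (PM T) κ w) hlt hW1 (by positivity : 0 ≤ 4 * L ^ 2) hff hB
    have h2 := num_term (hl1 v w) (hl2 v w) (hlexp v hv w)
    have hcf0 : 0 ≤ (nb (PB T) κ K : ℝ) * VB κ T v / VM κ T w ^ l v w := by
      rw [hVB v, hVM w]
      positivity
    calc ENNReal.ofReal (nb (PB T) κ K * VB κ T v / VM κ T w ^ l v w) *
      ∫⁻ t : ℝ, ENNReal.ofReal (‖Mb ε η (yb (PB T) κ v) T t * Qb (PM T) κ w t ^ l v w‖ ^ 2 *
        Real.exp (-(a * h / T * |t|)))
        ≤ ENNReal.ofReal (nb (PB T) κ K * VB κ T v / VM κ T w ^ l v w) *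
          ENNReal.ofReal (C * (4 * L ^ 2) ^ 2 * (l v w + 1) *
          (B * ((4 * (l v w : ℝ) / yb (PM T) κ w) ^ l v w * yb (PB T) κ v +
            (2 * (l v w : ℝ)) ^ l v w))) := by
          gcongr
          exact h1
      _ = ENNReal.ofReal (nb (PB T) κ K * VB κ T v / VM κ T w ^ l v w *
          (C * (4 * L ^ 2) ^ 2 * (l v w + 1) *
          (B * ((4 * (l v w : ℝ) / yb (PM T) κ w) ^ l v w * yb (PB T) κ v +
            (2 * (l v w : ℝ)) ^ l v w)))) := (ENNReal.ofReal_mul hcf0).symm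
      _ ≤ _ := by
          apply ENNReal.ofReal_le_ofReal
          have h3 : nb (PB T) κ K * VB κ T v / VM κ T w ^ l v w *
              (C * (4 * L ^ 2) ^ 2 * (l v w + 1) *
              (B * ((4 * (l v w : ℝ) / yb (PM T) κ w) ^ l v w * yb (PB T) κ v +
                (2 * (l v w : ℝ)) ^ l v w))) =
              nb (PB T) κ K * (16 * C * B * (l v w + 1)) * L ^ 4 *
                (Real.exp (-(7 / 8 * u v)) / Real.exp (-(3 / 4 * s w)) ^ l v w *
                  ((4 * (l v w : ℝ) / Real.exp (s w)) ^ l v w * Real.exp (u v) +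
                    (2 * (l v w : ℝ)) ^ l v w)) := by
            rw [hVB v, hVM w, hybB v, hybM w]
            ring
          rw [h3]
          have h4 : (l v w : ℝ) + 1 ≤ z := by
            have := hlz v hv w
            have : (0 : ℝ) ≤ l v w := Nat.cast_nonneg _
            linarith
          have h5 : Real.exp (-(u v / 16) + 13 / 16 * s w) ≤
              Real.exp (-z + (17 + 16 * K) * ζ) := by
            apply Real.exp_le_exp.2
            have := hu16 v
            have := hsD w hw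
            have := hs0 w
            linarith
          calc nb (PB T) κ K * (16 * C * B * (l v w + 1)) * L ^ 4 *
                (Real.exp (-(7 / 8 * u v)) / Real.exp (-(3 / 4 * s w)) ^ l v w *
                  ((4 * (l v w : ℝ) / Real.exp (s w)) ^ l v w * Real.exp (u v) +
                    (2 * (l v w : ℝ)) ^ l v w))
              ≤ nb (PB T) κ K * (16 * C * B * z) * L ^ 4 *
                (2 * Real.exp (-z + (17 + 16 * K) * ζ)) := by
                have h7 := h2.trans (mul_le_mul_of_nonneg_left h5 (by norm_num : (0 : ℝ) ≤ 2))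
                refine mul_le_mul ?_ h7 (by positivity) (by positivity)
                gcongr
            _ = _ := by ring)
  refine hmain.trans (ENNReal.ofReal_le_ofReal ?_)
  have h6 := mul_le_mul_of_nonneg_right (g2 _ _ hn1b hn2b) (show 0 ≤ L ^ 4 by positivity)
  refine le_trans (le_of_eq ?_) h6
  ring

end Pool.Agent.Lib.MP_6bc78b_nt.GP.H70M
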