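import Pool.Agent.Lib.MP_6bc78b_nt.GP.H69.Mvtx
import Pool.Agent.Lib.MP_6bc78b_nt.GP.H13.Plc

/-! Project GP10 (MP_6bc78b_nt): the generic estimate on the physical side. A piece of the window
with low frequencies, times a short Dirichlet polynomial whose primes shift the frequencies into a
positive band. -/

set_option autoImplicit false

open Complex MeasureTheory Set Filter Topology
open scoped ENNReal

namespace Pool.Agent.Lib.MP_6bc78b_nt.GP.H70P

open Pool.Agent.Lib.MP_6bc78b_nt.GP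

/-- The short polynomial. -/
noncomputable def Bp (Q : Finset ℕ) (W τ : ℝ) : ℂ :=
  (1 / W : ℂ) * ∑ q ∈ Q, (q : ℂ) ^ (-(1 / 2 + τ * I : ℂ))

/-- The band. -/
noncomputable def Gb (g : ℝ → ℂ) (a b τ : ℝ) : ℂ := ∫ v in Icc a b, g v * Complex.exp (v * τ * I)

lemma norm_unit (x y : ℝ) : ‖Complex.exp (x * y * I)‖ = 1 := by
  have : (x * y * I : ℂ) = ((x * y : ℝ) : ℂ) * I := by push_cast; rfl
  rw [this, Complex.norm_exp_ofReal_mul_I]

lemma cpow_split {q : ℕ} (hq : 1 ≤ q) (t x : ℝ) :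
    (q : ℂ) ^ (-(1 / 2 + t * I : ℂ)) * Complex.exp (-(Real.log q * x * I)) =
      (q : ℂ) ^ (-(1 / 2 + (t + x : ℝ) * I : ℂ)) := by
  have h0 : (q : ℂ) ≠ 0 := by exact_mod_cast (by omega : q ≠ 0)
  rw [Complex.cpow_def_of_ne_zero h0, Complex.cpow_def_of_ne_zero h0, ← Complex.exp_add]
  congr 1
  rw [← Complex.natCast_log]
  push_cast
  ring

lemma Bp_eq (Q : Finset ℕ) (hQ : ∀ q ∈ Q, 1 ≤ q) (W τ : ℝ) : Bp Q W τ =
    ∑ q ∈ Q, ((1 / W * (q : ℝ) ^ (-(1 / 2) : ℝ) : ℝ) : ℂ) *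
      Complex.exp (-(Real.log q * τ * I)) := by
  unfold Bp
  rw [Finset.mul_sum]
  apply Finset.sum_congr rfl
  intro q hq
  have h0 : (q : ℂ) ≠ 0 := by exact_mod_cast (by have := hQ q hq; omega : q ≠ 0)
  have h1 : (0 : ℝ) < q := by exact_mod_cast (by have := hQ q hq; omega : 0 < q)
  rw [Complex.ofReal_mul, mul_assoc, Complex.ofReal_cpow h1.le]
  push_cast
  congr 1
  rw [Complex.cpow_def_of_ne_zero h0, Complex.cpow_def_of_ne_zero h0, ← Complex.exp_add]
  congr 1
  rw [← Complex.natCast_log]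
  ring

lemma Bp_cont (Q : Finset ℕ) (hQ : ∀ q ∈ Q, 1 ≤ q) (W : ℝ) : Continuous (Bp Q W) := by
  have : Bp Q W = fun τ : ℝ => ∑ q ∈ Q, ((1 / W * (q : ℝ) ^ (-(1 / 2) : ℝ) : ℝ) : ℂ) *
      Complex.exp (-(Real.log q * τ * I)) := by
    funext τ
    exact Bp_eq Q hQ W τ
  rw [this]
  fun_prop

lemma Gb_cont {g : ℝ → ℂ} {a b : ℝ} (hg : IntegrableOn g (Icc a b)) : Continuous (Gb g a b) := by
  unfold Gb
  apply continuous_of_dominated (bound := fun v => ‖g v‖)
  · intro τ
    exact hg.1.mul (by fun_prop : Continuous fun v : ℝ => Complex.exp (v * τ * I)).aestronglyMeasurable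
  · intro τ
    filter_upwards with v
    rw [norm_mul, norm_unit, mul_one]
  · exact hg.norm
  · filter_upwards with v
    fun_prop

/-- The physical side. -/
lemma piece_eq {φ g f : ℝ → ℂ} {Q : Finset ℕ} {W a b : ℝ} (hφ : Integrable φ)
    (hf : ∀ u : ℝ, f u = ∫ x : ℝ, φ x * Complex.exp (u * x * I)) (hQ : ∀ q ∈ Q, 1 ≤ q)
    (hg : IntegrableOn g (Icc a b))
    (hs : ∀ q ∈ Q, ∀ v ∉ Icc a b, f (v - Real.log q) = 0) (t : ℝ) :
    (1 / W : ℂ) * ∑ q ∈ Q, (q : ℂ) ^ (-(1 / 2 + t * I : ℂ)) *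
      ∫ v : ℝ, f (v - Real.log q) * g v * Complex.exp (v * t * I) =
    ∫ x : ℝ, φ x * (Bp Q W (t + x) * Gb g a b (t + x)) := by
  have key : ∀ q ∈ Q, Integrable (fun x : ℝ => φ x * Complex.exp (-(Real.log q * x * I)) *
      Gb g a b (t + x)) ∧
      ∫ v : ℝ, f (v - Real.log q) * g v * Complex.exp (v * t * I) =
      ∫ x : ℝ, φ x * Complex.exp (-(Real.log q * x * I)) * Gb g a b (t + x) := by
    intro q hq
    set F : ℝ → ℝ → ℂ := fun v x => g v * φ x *
      (Complex.exp ((v - Real.log q : ℝ) * x * I) * Complex.exp (v * t * I)) with hF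
    have hint : Integrable (Function.uncurry F) ((volume.restrict (Icc a b)).prod volume) := by
      have h1 : Integrable (fun z : ℝ × ℝ => g z.1 * φ z.2)
          ((volume.restrict (Icc a b)).prod volume) := Integrable.mul_prod hg hφ
      have h2 : Continuous (fun z : ℝ × ℝ => Complex.exp ((z.1 - Real.log q : ℝ) * z.2 * I) *
          Complex.exp (z.1 * t * I)) := by fun_prop
      refine h1.mono (h1.1.mul h2.aestronglyMeasurable) ?_
      filter_upwards with z
      simp only [Function.uncurry, hF]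
      rw [norm_mul (g z.1 * φ z.2), norm_mul (Complex.exp _), norm_unit, norm_unit, mul_one,
        mul_one]
    have hswap := integral_integral_swap hint
    have hR : ∀ x : ℝ, ∫ v in Icc a b, F v x =
        φ x * Complex.exp (-(Real.log q * x * I)) * Gb g a b (t + x) := by
      intro x
      unfold Gb
      rw [← integral_const_mul]
      apply integral_congr_ae
      filter_upwards with v
      simp only [hF]
      have e1 : Complex.exp ((v - Real.log q : ℝ) * x * I) * Complex.exp (v * t * I) =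
          Complex.exp (-(Real.log q * x * I)) * Complex.exp (v * (t + x : ℝ) * I) := by
        rw [← Complex.exp_add, ← Complex.exp_add]
        congr 1
        push_cast
        ring
      rw [e1]
      ring
    have hL : ∀ v : ℝ, ∫ x : ℝ, F v x = f (v - Real.log q) * g v * Complex.exp (v * t * I) := by
      intro v
      rw [hf, mul_assoc, ← integral_mul_const]
      apply integral_congr_ae
      filter_upwards with x
      simp only [hF]
      ring
    refine ⟨?_, ?_⟩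
    · have h3 := hint.integral_prod_right
      refine h3.congr ?_
      filter_upwards with x
      exact hR x
    · rw [← setIntegral_eq_integral_of_forall_compl_eq_zero (s := Icc a b)]
      · calc ∫ v in Icc a b, f (v - Real.log q) * g v * Complex.exp (v * t * I)
            = ∫ v in Icc a b, ∫ x : ℝ, F v x := by
              apply integral_congr_ae
              filter_upwards with v
              exact (hL v).symm
          _ = ∫ x : ℝ, ∫ v in Icc a b, F v x := hswap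
          _ = _ := by
              apply integral_congr_ae
              filter_upwards with x
              exact hR x
      · intro v hv
        rw [hs q hq v hv, zero_mul, zero_mul]
  have h1 : ∑ q ∈ Q, (q : ℂ) ^ (-(1 / 2 + t * I : ℂ)) *
      ∫ v : ℝ, f (v - Real.log q) * g v * Complex.exp (v * t * I) =
      ∫ x : ℝ, ∑ q ∈ Q, (q : ℂ) ^ (-(1 / 2 + t * I : ℂ)) *
        (φ x * Complex.exp (-(Real.log q * x * I)) * Gb g a b (t + x)) := by
    rw [integral_finsetSum _ fun q hq => (key q hq).1.const_mul _]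
    apply Finset.sum_congr rfl
    intro q hq
    rw [integral_const_mul, (key q hq).2]
  rw [h1, ← integral_const_mul]
  apply integral_congr_ae
  filter_upwards with x
  unfold Bp
  rw [Finset.mul_sum, Finset.mul_sum, Finset.sum_mul, Finset.mul_sum]
  apply Finset.sum_congr rfl
  intro q hq
  rw [← cpow_split (hQ q hq) t x]
  ring

/-- The mean square of the short polynomial on an interval of length `T`. -/
lemma Bp_sq {Q : Finset ℕ} {W T : ℝ} (hT : 0 < T) (hQ : ∀ q ∈ Q, 1 ≤ q ∧ (q : ℝ) ≤ T)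
    (x : ℝ) :
    ∫⁻ t in Icc T (2 * T), ENNReal.ofReal (‖Bp Q W (t + x)‖ ^ 2) ≤
      ENNReal.ofReal (44 * (T / W ^ 2 * ∑ q ∈ Q, 1 / (q : ℝ))) := by
  classical
  have hQ1 : ∀ q ∈ Q, 1 ≤ q := fun q hq => (hQ q hq).1
  set N : ℕ := Q.sup id with hN
  set y : ℝ := 3 * T / 2 + x with hy
  set c : ℕ → ℂ := fun n => if n ∈ Q then ((1 / W * (n : ℝ) ^ (-(1 / 2) : ℝ) : ℝ) : ℂ) *
    Complex.exp (-(Real.log n * y * I)) else 0 with hc
  have hsub : Q ⊆ Finset.Icc 1 N := by
    intro q hq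
    rw [Finset.mem_Icc]
    exact ⟨hQ1 q hq, Finset.le_sup (f := id) hq⟩
  have hB : ∀ s : ℝ, Bp Q W (s + y) = ∑ n ∈ Finset.Icc 1 N, c n *
      Complex.exp (-(Real.log n * s * I)) := by
    intro s
    rw [Bp_eq Q hQ1, ← Finset.sum_subset hsub]
    · apply Finset.sum_congr rfl
      intro q hq
      simp only [hc]
      have e : Complex.exp (-(Real.log q * (s + y : ℝ) * I)) =
          Complex.exp (-(Real.log q * y * I)) * Complex.exp (-(Real.log q * s * I)) := by
        rw [← Complex.exp_add]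
        congr 1
        push_cast
        ring
      rw [if_pos hq, e]
      ring
    · intro n _ hn
      simp only [hc]
      rw [if_neg hn, zero_mul]
  obtain ⟨hi, hle⟩ := H69.mvt (b := 1 / T) (by positivity) N c
  have hsum : ∑ n ∈ Finset.Icc 1 N, (6 * Real.pi * n + 2 / (1 / T)) * ‖c n‖ ^ 2 ≤
      22 * (T / W ^ 2 * ∑ q ∈ Q, 1 / (q : ℝ)) := by
    have e1 : ∑ n ∈ Finset.Icc 1 N, (6 * Real.pi * n + 2 / (1 / T)) * ‖c n‖ ^ 2 =
        ∑ n ∈ Q, (6 * Real.pi * n + 2 / (1 / T)) * ‖c n‖ ^ 2 := by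
      rw [← Finset.sum_subset hsub]
      intro n _ hn
      simp only [hc]
      rw [if_neg hn, norm_zero]
      ring
    rw [e1, Finset.mul_sum, Finset.mul_sum]
    apply Finset.sum_le_sum
    intro q hq
    have hq0 : (0 : ℝ) < q := by exact_mod_cast hQ1 q hq
    have e2 : ‖c q‖ ^ 2 = 1 / W ^ 2 * (1 / q) := by
      simp only [hc]
      rw [if_pos hq, norm_mul, Complex.norm_real, Real.norm_eq_abs]
      have e3 : ‖Complex.exp (-(Real.log q * y * I))‖ = 1 := by
        have : (-(Real.log q * y * I) : ℂ) = ((-(Real.log q * y) : ℝ) : ℂ) * I := by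
          push_cast
          ring
        rw [this, Complex.norm_exp_ofReal_mul_I]
      have e4 : ((q : ℝ) ^ (-(1 / 2) : ℝ)) ^ 2 = 1 / q := by
        rw [← Real.rpow_natCast, ← Real.rpow_mul hq0.le]
        have : (-(1 / 2) * ((2 : ℕ) : ℝ) : ℝ) = -1 := by norm_num
        rw [this, Real.rpow_neg_one, one_div]
      rw [e3, mul_one, sq_abs, mul_pow, e4, div_pow, one_pow]
    rw [e2]
    have h1 : 6 * Real.pi * q + 2 / (1 / T) ≤ 22 * T := by
      have h2 := (hQ q hq).2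
      have h3 := Real.pi_lt_d2
      have h4 : 2 / (1 / T) = 2 * T := by rw [div_div_eq_mul_div, div_one]
      rw [h4]
      nlinarith [Real.pi_pos]
    calc (6 * Real.pi * q + 2 / (1 / T)) * (1 / W ^ 2 * (1 / q))
        ≤ 22 * T * (1 / W ^ 2 * (1 / q)) := mul_le_mul_of_nonneg_right h1 (by positivity)
      _ = 22 * (T / W ^ 2 * (1 / q)) := by ring
  have hm : Measurable fun t : ℝ => ENNReal.ofReal (‖Bp Q W (t + y)‖ ^ 2) := by
    have := Bp_cont Q hQ1 W
    exact ENNReal.measurable_ofReal.comp (by fun_prop : Continuous fun t : ℝ =>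
      ‖Bp Q W (t + y)‖ ^ 2).measurable
  calc ∫⁻ t in Icc T (2 * T), ENNReal.ofReal (‖Bp Q W (t + x)‖ ^ 2)
      = ∫⁻ t, (Icc T (2 * T)).indicator (fun t => ENNReal.ofReal (‖Bp Q W (t + x)‖ ^ 2)) t := by
        rw [lintegral_indicator measurableSet_Icc]
    _ = ∫⁻ s, (Icc T (2 * T)).indicator (fun t => ENNReal.ofReal (‖Bp Q W (t + x)‖ ^ 2))
          (s + 3 * T / 2) := (lintegral_add_right_eq_self _ _).symm
    _ ≤ ∫⁻ s : ℝ, ENNReal.ofReal (2 * (‖∑ n ∈ Finset.Icc 1 N, c n *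
          Complex.exp (-(Real.log n * s * I))‖ ^ 2 * Real.exp (-(1 / T * |s|)))) := by
        apply lintegral_mono
        intro s
        simp only [Set.indicator]
        split_ifs with h
        · apply ENNReal.ofReal_le_ofReal
          have e1 : s + 3 * T / 2 + x = s + y := by rw [hy]; ring
          rw [e1, hB s]
          have h1 : |s| ≤ T / 2 := by
            rw [abs_le]
            constructor <;> linarith [h.1, h.2]
          have h2 : 1 / 2 ≤ Real.exp (-(1 / T * |s|)) := by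
            have h3 : 1 / T * |s| ≤ 1 / 2 := by
              rw [one_div_mul_eq_div, div_le_iff₀ hT]
              linarith
            have h4 := Real.add_one_le_exp (-(1 / T * |s|))
            linarith
          have h5 : 0 ≤ ‖∑ n ∈ Finset.Icc 1 N, c n *
            Complex.exp (-(Real.log n * s * I))‖ ^ 2 := by positivity
          nlinarith
        · exact bot_le
    _ = ENNReal.ofReal (∫ s : ℝ, 2 * (‖∑ n ∈ Finset.Icc 1 N, c n *
          Complex.exp (-(Real.log n * s * I))‖ ^ 2 * Real.exp (-(1 / T * |s|)))) :=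
        (ofReal_integral_eq_lintegral_ofReal (hi.const_mul 2)
          (ae_of_all _ fun s => by positivity)).symm
    _ ≤ _ := by
        apply ENNReal.ofReal_le_ofReal
        rw [integral_const_mul]
        linarith

/-- The mean square of the band. -/
lemma Gb_sq {g : ℝ → ℂ} {a b : ℝ} (hg : IntegrableOn g (Icc a b)) :
    ∫⁻ τ : ℝ, ENNReal.ofReal (‖Gb g a b τ‖ ^ 2) ≤
      ENNReal.ofReal (2 * Real.pi) * ∫⁻ v in Icc a b, ENNReal.ofReal (‖g v‖ ^ 2) := by
  have h := H13.plc ((Icc a b).indicator g) ((integrable_indicator_iff measurableSet_Icc).2 hg)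
  have e1 : ∀ τ : ℝ, ∫ w : ℝ, (Icc a b).indicator g w * Complex.exp (τ * w * I) =
      Gb g a b τ := by
    intro τ
    unfold Gb
    rw [← integral_indicator measurableSet_Icc]
    apply integral_congr_ae
    filter_upwards with w
    simp only [Set.indicator]
    split_ifs
    · congr 2
      ring
    · rw [zero_mul]
  simp only [e1] at h
  refine h.trans (le_of_eq ?_)
  congr 1
  rw [← lintegral_indicator measurableSet_Icc]
  apply lintegral_congr
  intro w
  simp only [Set.indicator]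
  split_ifs
  · rfl
  · rw [norm_zero]
    norm_num

/-- Hölder for one shift. -/
lemma shift_le {g : ℝ → ℂ} {Q : Finset ℕ} {W T a b : ℝ} (hT : 0 < T)
    (hQ : ∀ q ∈ Q, 1 ≤ q ∧ (q : ℝ) ≤ T) (hg : IntegrableOn g (Icc a b)) (x : ℝ) :
    ∫⁻ t in Icc T (2 * T), ‖Bp Q W (t + x)‖ₑ * ‖Gb g a b (t + x)‖ₑ ≤
      (ENNReal.ofReal (44 * (T / W ^ 2 * ∑ q ∈ Q, 1 / (q : ℝ)))) ^ (1 / 2 : ℝ) *
      (ENNReal.ofReal (2 * Real.pi) * ∫⁻ v in Icc a b, ENNReal.ofReal (‖g v‖ ^ 2)) ^
        (1 / 2 : ℝ) := by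
  have hB := Bp_cont Q (fun q hq => (hQ q hq).1) W
  have hG := Gb_cont hg
  have hsq : ∀ z : ℂ, ‖z‖ₑ ^ (2 : ℝ) = ENNReal.ofReal (‖z‖ ^ 2) := by
    intro z
    rw [ENNReal.rpow_two, ENNReal.ofReal_pow (norm_nonneg _), ofReal_norm]
  have h1 := ENNReal.lintegral_mul_le_Lp_mul_Lq (volume.restrict (Icc T (2 * T)))
    Real.HolderConjugate.two_two (f := fun t => ‖Bp Q W (t + x)‖ₑ)
    (g := fun t => ‖Gb g a b (t + x)‖ₑ)
    (by fun_prop : Continuous fun t : ℝ => Bp Q W (t + x)).enorm.measurable.aemeasurable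
    (by fun_prop : Continuous fun t : ℝ => Gb g a b (t + x)).enorm.measurable.aemeasurable
  refine h1.trans (mul_le_mul' ?_ ?_)
  · apply ENNReal.rpow_le_rpow _ (by norm_num)
    simp only [hsq]
    exact Bp_sq hT hQ x
  · apply ENNReal.rpow_le_rpow _ (by norm_num)
    simp only [hsq]
    refine (setLIntegral_le_lintegral _ _).trans ?_
    rw [lintegral_add_right_eq_self (fun t => ENNReal.ofReal (‖Gb g a b t‖ ^ 2)) x]
    exact Gb_sq hg

/-- **The piece.** -/
theorem piece {φ g f : ℝ → ℂ} {Q : Finset ℕ} {W T a b : ℝ} (hφ : Integrable φ)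
    (hf : ∀ u : ℝ, f u = ∫ x : ℝ, φ x * Complex.exp (u * x * I)) (hT : 0 < T)
    (hQ : ∀ q ∈ Q, 1 ≤ q ∧ (q : ℝ) ≤ T) (hg : IntegrableOn g (Icc a b))
    (hs : ∀ q ∈ Q, ∀ v ∉ Icc a b, f (v - Real.log q) = 0) :
    (∫⁻ t in Icc T (2 * T), ENNReal.ofReal ‖(1 / W : ℂ) * ∑ q ∈ Q,
      (q : ℂ) ^ (-(1 / 2 + t * I : ℂ)) *
        ∫ v : ℝ, f (v - Real.log q) * g v * Complex.exp (v * t * I)‖) ^ 2 ≤
    ENNReal.ofReal (300 * (∫ x : ℝ, ‖φ x‖) ^ 2 * (T / W ^ 2 * ∑ q ∈ Q, 1 / (q : ℝ))) *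
      ∫⁻ v in Icc a b, ENNReal.ofReal (‖g v‖ ^ 2) := by
  have hQ1 : ∀ q ∈ Q, 1 ≤ q := fun q hq => (hQ q hq).1
  have hB := Bp_cont Q hQ1 W
  have hG := Gb_cont hg
  set S : ℝ := T / W ^ 2 * ∑ q ∈ Q, 1 / (q : ℝ) with hS
  have hS0 : 0 ≤ S := by
    rw [hS]
    have : 0 ≤ ∑ q ∈ Q, 1 / (q : ℝ) := Finset.sum_nonneg fun q _ => by positivity
    positivity
  set N : ℝ≥0∞ := ∫⁻ v in Icc a b, ENNReal.ofReal (‖g v‖ ^ 2) with hN
  set P : ℝ≥0∞ := ∫⁻ x : ℝ, ‖φ x‖ₑ with hP
  have hP' : P = ENNReal.ofReal (∫ x : ℝ, ‖φ x‖) := by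
    rw [hP, ofReal_integral_norm_eq_lintegral_enorm hφ]
  have h1 : ∫⁻ t in Icc T (2 * T), ENNReal.ofReal ‖(1 / W : ℂ) * ∑ q ∈ Q,
      (q : ℂ) ^ (-(1 / 2 + t * I : ℂ)) *
        ∫ v : ℝ, f (v - Real.log q) * g v * Complex.exp (v * t * I)‖ ≤
      P * ((ENNReal.ofReal (44 * S)) ^ (1 / 2 : ℝ) *
        (ENNReal.ofReal (2 * Real.pi) * N) ^ (1 / 2 : ℝ)) := by
    calc ∫⁻ t in Icc T (2 * T), ENNReal.ofReal ‖(1 / W : ℂ) * ∑ q ∈ Q,
      (q : ℂ) ^ (-(1 / 2 + t * I : ℂ)) *
        ∫ v : ℝ, f (v - Real.log q) * g v * Complex.exp (v * t * I)‖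
        ≤ ∫⁻ t in Icc T (2 * T), ∫⁻ x : ℝ,
            ‖φ x‖ₑ * (‖Bp Q W (t + x)‖ₑ * ‖Gb g a b (t + x)‖ₑ) := by
          apply lintegral_mono
          intro t
          simp only
          rw [piece_eq hφ hf hQ1 hg hs t, ofReal_norm]
          refine (enorm_integral_le_lintegral_enorm _).trans (le_of_eq ?_)
          apply lintegral_congr
          intro x
          rw [enorm_mul, enorm_mul]
      _ = ∫⁻ x : ℝ, ∫⁻ t in Icc T (2 * T),
            ‖φ x‖ₑ * (‖Bp Q W (t + x)‖ₑ * ‖Gb g a b (t + x)‖ₑ) := by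
          apply lintegral_lintegral_swap
          have m1 : AEStronglyMeasurable (fun z : ℝ × ℝ => φ z.2)
              ((volume.restrict (Icc T (2 * T))).prod volume) := hφ.1.comp_snd
          have m2 : Continuous (fun z : ℝ × ℝ => Bp Q W (z.1 + z.2)) := by fun_prop
          have m3 : Continuous (fun z : ℝ × ℝ => Gb g a b (z.1 + z.2)) := by fun_prop
          exact m1.enorm.mul (m2.enorm.measurable.aemeasurable.mul
            m3.enorm.measurable.aemeasurable)
      _ = ∫⁻ x : ℝ, ‖φ x‖ₑ * ∫⁻ t in Icc T (2 * T),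
            ‖Bp Q W (t + x)‖ₑ * ‖Gb g a b (t + x)‖ₑ := by
          apply lintegral_congr
          intro x
          rw [lintegral_const_mul' _ _ enorm_ne_top]
      _ ≤ ∫⁻ x : ℝ, ‖φ x‖ₑ * ((ENNReal.ofReal (44 * S)) ^ (1 / 2 : ℝ) *
            (ENNReal.ofReal (2 * Real.pi) * N) ^ (1 / 2 : ℝ)) := by
          apply lintegral_mono
          intro x
          exact mul_le_mul_right (shift_le hT hQ hg x) _
      _ = P * _ := lintegral_mul_const'' _ hφ.1.enorm
  calc (∫⁻ t in Icc T (2 * T), ENNReal.ofReal ‖(1 / W : ℂ) * ∑ q ∈ Q,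
      (q : ℂ) ^ (-(1 / 2 + t * I : ℂ)) *
        ∫ v : ℝ, f (v - Real.log q) * g v * Complex.exp (v * t * I)‖) ^ 2
      ≤ (P * ((ENNReal.ofReal (44 * S)) ^ (1 / 2 : ℝ) *
        (ENNReal.ofReal (2 * Real.pi) * N) ^ (1 / 2 : ℝ))) ^ 2 := pow_le_pow_left' h1 2
    _ = P ^ 2 * (ENNReal.ofReal (44 * S) * (ENNReal.ofReal (2 * Real.pi) * N)) := by
        have e1 : ∀ w : ℝ≥0∞, (w ^ (1 / 2 : ℝ)) ^ 2 = w := by
          intro w
          rw [← ENNReal.rpow_natCast, ← ENNReal.rpow_mul]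
          norm_num
        rw [mul_pow, mul_pow, e1, e1]
    _ = ENNReal.ofReal ((∫ x : ℝ, ‖φ x‖) ^ 2 * (44 * S * (2 * Real.pi))) * N := by
        rw [hP', ← ENNReal.ofReal_pow (integral_nonneg fun x => norm_nonneg _), ← mul_assoc,
          ← mul_assoc, ← ENNReal.ofReal_mul (by positivity), ← ENNReal.ofReal_mul (by positivity)]
        congr 2
        ring
    _ ≤ ENNReal.ofReal (300 * (∫ x : ℝ, ‖φ x‖) ^ 2 * S) * N := by
        refine mul_le_mul' (ENNReal.ofReal_le_ofReal ?_) le_rfl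
        have h3 := Real.pi_lt_d2
        have h4 : 0 ≤ (∫ x : ℝ, ‖φ x‖) ^ 2 * S := by positivity
        nlinarith

end Pool.Agent.Lib.MP_6bc78b_nt.GP.H70P
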