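import Pool.Agent.Lib.MP_6bc78b_nt.GP.H43.Defs10b
import Pool.Agent.Lib.MP_6bc78b_nt.GP.H70.Piece
import Pool.Agent.Lib.MP_6bc78b_nt.GP.H91.Etr
import Pool.Agent.Lib.MP_6bc78b_nt.GP.H38.Dx2

/-! Project GP10 (MP_6bc78b_nt), row PIECEB: one piece of the window against `EE_B`. -/

set_option autoImplicit false

open Complex Filter Topology MeasureTheory ArithmeticFunction Set
open scoped ENNReal

namespace Pool.Agent.Lib.MP_6bc78b_nt.GP.H70B

open Pool.Agent.Lib.MP_6bc78b_nt.GP Pool.Agent.Lib.MP_6bc78b_nt.GP.G7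
open Pool.Agent.Lib.MP_6bc78b_nt.GP.G10

/-- Multiplication of the frequency by `q` is a shift by `log q`. -/
lemma EE_shift (A B u δ : ℝ) (q m : ℕ) (hq : 1 ≤ q) :
    EE A B (((q * m : ℕ) : ℂ) * zp u δ) = EE A B ((m : ℂ) * zp (u + Real.log q) δ) := by
  unfold EE
  refine tsum_congr fun n => ?_
  congr 1
  have hq0 : (0 : ℝ) < q := by exact_mod_cast hq
  have e1 : Complex.exp (((u + Real.log q : ℝ) : ℂ) - δ * I) =
      (q : ℂ) * Complex.exp ((u : ℂ) - δ * I) := by
    have e2 : (((u + Real.log q : ℝ) : ℂ) - δ * I) =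
        ((Real.log q : ℝ) : ℂ) + ((u : ℂ) - δ * I) := by
      push_cast
      ring
    rw [e2, Complex.exp_add, ← Complex.ofReal_exp, Real.exp_log hq0, Complex.ofReal_natCast]
  have e3 : -((n : ℂ) * ((m : ℂ) * zp (u + Real.log q) δ)) =
      -((n : ℂ) * (((q * m : ℕ) : ℂ) * zp u δ)) +
        ((-((n : ℤ) * ((m : ℤ) * ((q : ℤ) - 1))) : ℤ) : ℂ) * (2 * Real.pi * I) := by
    unfold zp
    rw [e1]
    push_cast
    ring
  rw [e3, Complex.exp_add, Complex.exp_int_mul_two_pi_mul_I, mul_one]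

/-- The membership in `Q_k`. -/
lemma mem_Qk {w : ℝ} {k q : ℕ} (hq : q ∈ Qk w k) :
    1 ≤ q ∧ pk w k < Real.log q ∧ Real.log q ≤ pk w (k + 1) ∧
      (q : ℝ) ≤ Real.exp (pk w (k + 1)) := by
  classical
  unfold Qk qs at hq
  rw [Finset.mem_filter, Finset.mem_range] at hq
  obtain ⟨h1, h2, h3⟩ := hq
  have hq1 : 1 ≤ q := h2.one_lt.le
  have hq0 : (0 : ℝ) < q := by exact_mod_cast hq1
  have h4 : (q : ℝ) ≤ Real.exp (pk w (k + 1)) :=
    le_trans (by exact_mod_cast Nat.lt_succ_iff.1 h1) (Nat.floor_le (Real.exp_pos _).le)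
  exact ⟨hq1, (Real.lt_log_iff_exp_lt hq0).2 h3, (Real.log_le_iff_le_exp hq0).2 h4, h4⟩

lemma FTo_cont {φ : ℝ → ℂ} {f : ℝ → ℂ} (hφ : Integrable φ)
    (hf : ∀ u : ℝ, f u = ∫ x : ℝ, φ x * Complex.exp (u * x * I)) : Continuous f := by
  have h1 : f = fun u : ℝ => ∫ x : ℝ, φ x * Complex.exp (u * x * I) := funext hf
  rw [h1]
  refine continuous_of_dominated (bound := fun x => ‖φ x‖) ?_ ?_ hφ.norm ?_
  · intro u
    exact hφ.1.mul (by fun_prop : Continuous fun x : ℝ =>
      Complex.exp (u * x * I)).aestronglyMeasurable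
  · intro u
    refine Eventually.of_forall fun x => ?_
    rw [norm_mul, H70P.norm_unit, mul_one]
  · refine Eventually.of_forall fun x => ?_
    fun_prop

lemma EM_cont (A B δ : ℝ) (S : Finset ℕ) (β : ℕ → ℝ) (h0 : 0 < δ) (h1 : δ ≤ 1 / 2)
    (hS : ∀ m ∈ S, 1 ≤ m) : Continuous (fun u : ℝ => EM A B S β (zp u δ)) := by
  obtain ⟨-, -, C, hC, h⟩ := H38.dx2 A B
  have hs : 0 < Real.sin δ := Real.sin_pos_of_pos_of_lt_pi h0 (by linarith [Real.pi_gt_three])
  unfold EM
  refine continuous_finsetSum S fun m hm => continuous_const.mul ?_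
  refine (H91.EE_cont hC h).comp_continuous (continuous_const.mul (H91.zp_cont δ)) fun u => ?_
  have h2 : 0 < (zp u δ).re := by
    rw [H91.zp_re]
    positivity
  have h3 : (((m : ℂ)) * zp u δ).re = m * (zp u δ).re := by simp
  have h4 : (0 : ℝ) < m := by exact_mod_cast hS m hm
  show 0 < (((m : ℂ)) * zp u δ).re
  rw [h3]
  exact mul_pos h4 h2

/-- The row PIECEB. -/
theorem pieceb : PIECEBStatement := by
  refine ⟨300, by norm_num, ?_⟩
  intro A B T δ w m N ν K k S β S' β' F hT h0 h1 hw hk hexp hScl hF hsup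
  obtain ⟨φ, hφ, hm, hF⟩ := hF
  have hmol := hScl.mol' k hk
  have hW1 : 1 ≤ Wk w k := hScl.one_le k hk
  have hW0 : 0 < Wk w k := by linarith
  have hEM := EM_cont A B δ (S' k) (β' k) h0 h1 hmol.one_le
  set g : ℝ → ℂ := fun v => ((Real.exp (v / 2) : ℝ) : ℂ) * EM A B (S' k) (β' k) (zp v δ) with hg
  have hgc : Continuous g := by
    rw [hg]
    exact (Complex.continuous_ofReal.comp (by fun_prop)).mul hEM
  set f : ℝ → ℂ := fun u => (F u : ℂ) with hf
  have hfc : Continuous f := FTo_cont hφ hF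
  have hfs : HasCompactSupport f := by
    refine HasCompactSupport.intro (isCompact_Icc : IsCompact (Icc (-(pk w k / 2)) (pk w k / 2))) ?_
    intro u hu
    have : pk w k / 2 < |u| := by
      by_contra hh
      exact hu (abs_le.1 (not_lt.1 hh))
    rw [hf]
    simp only [hsup u this, Complex.ofReal_zero]
  -- the formula for `S_E`
  have hSB : ∀ t : ℝ, SB A B δ F S β t = (1 / (Wk w k : ℝ) : ℂ) * ∑ q ∈ Qk w k,
      (q : ℂ) ^ (-(1 / 2 + t * I : ℂ)) *
        ∫ v : ℝ, f (v - Real.log q) * g v * Complex.exp (v * t * I) := by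
    intro t
    have hq : ∀ q ∈ Qk w k, ∀ u : ℝ, ((F u * Real.exp (u / 2) : ℝ) : ℂ) *
        EM A B (S' k) (β' k) (zp (u + Real.log q) δ) * Complex.exp (u * t * I) =
        (q : ℂ) ^ (-(1 / 2 + t * I : ℂ)) * (f (u + Real.log q - Real.log q) *
          g (u + Real.log q) * Complex.exp ((u + Real.log q : ℝ) * t * I)) := by
      intro q hq u
      have hq0 : (0 : ℝ) < q := by exact_mod_cast (mem_Qk hq).1
      have hq0' : (q : ℂ) ≠ 0 := by exact_mod_cast hq0.ne'
      have e1 : (q : ℂ) ^ (-(1 / 2 + t * I : ℂ)) =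
          Complex.exp (((Real.log q : ℝ) : ℂ) * (-(1 / 2 + t * I : ℂ))) := by
        rw [Complex.cpow_def_of_ne_zero hq0', ← Complex.natCast_log]
      rw [e1, hf, hg]
      simp only [add_sub_cancel_right]
      generalize Real.log (q : ℝ) = L
      push_cast
      rw [show ((u : ℂ) / 2) = (L : ℂ) * (-(1 / 2 + t * I : ℂ)) +
        (((u : ℂ) + (L : ℂ)) / 2 + (L : ℂ) * t * I) by ring,
        Complex.exp_add, Complex.exp_add]
      rw [show (((u : ℂ) + (L : ℂ)) * t * I) = u * t * I + (L : ℂ) * t * I by ring,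
        Complex.exp_add]
      ring
    have hint : ∀ q ∈ Qk w k, Integrable (fun u : ℝ => ((F u * Real.exp (u / 2) : ℝ) : ℂ) *
        EM A B (S' k) (β' k) (zp (u + Real.log q) δ) * Complex.exp (u * t * I)) := by
      intro q hq
      have hc1 : Continuous (fun u : ℝ => (((Real.exp (u / 2) : ℝ) : ℂ) *
          EM A B (S' k) (β' k) (zp (u + Real.log q) δ) * Complex.exp (u * t * I))) := by
        have h2 : Continuous (fun u : ℝ => EM A B (S' k) (β' k) (zp (u + Real.log q) δ)) :=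
          hEM.comp (continuous_id.add continuous_const)
        exact ((Complex.continuous_ofReal.comp (by fun_prop)).mul h2).mul (by fun_prop)
      have h3 := (hfc.mul hc1).integrable_of_hasCompactSupport (μ := volume) (hfs.mul_right)
      refine h3.congr (Eventually.of_forall fun u => ?_)
      show ((F u : ℝ) : ℂ) * (((Real.exp (u / 2) : ℝ) : ℂ) *
          EM A B (S' k) (β' k) (zp (u + Real.log q) δ) * Complex.exp (u * t * I)) =
        ((F u * Real.exp (u / 2) : ℝ) : ℂ) *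
          EM A B (S' k) (β' k) (zp (u + Real.log q) δ) * Complex.exp (u * t * I)
      rw [Complex.ofReal_mul]
      ring
    have h4 : SB A B δ F S β t = ∫ u : ℝ, (1 / (Wk w k : ℝ) : ℂ) * ∑ q ∈ Qk w k,
        ((F u * Real.exp (u / 2) : ℝ) : ℂ) *
        EM A B (S' k) (β' k) (zp (u + Real.log q) δ) * Complex.exp (u * t * I) := by
      unfold SB
      apply integral_congr_ae
      refine Eventually.of_forall fun u => ?_
      show ((F u * Real.exp (u / 2) : ℝ) : ℂ) * EM A B S β (zp u δ) * Complex.exp (u * t * I) = _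
      have h5 : EM A B S β (zp u δ) = (1 / (Wk w k : ℝ) : ℂ) * ∑ q ∈ Qk w k,
          EM A B (S' k) (β' k) (zp (u + Real.log q) δ) := by
        unfold EM
        rw [hScl.fac k hk (fun m => EE A B ((m : ℂ) * zp u δ))]
        congr 1
        refine Finset.sum_congr rfl fun q hq => Finset.sum_congr rfl fun m hm => ?_
        rw [EE_shift A B u δ q m (mem_Qk hq).1]
      show _ = (1 / (Wk w k : ℝ) : ℂ) * ∑ q ∈ Qk w k, ((F u * Real.exp (u / 2) : ℝ) : ℂ) *
        EM A B (S' k) (β' k) (zp (u + Real.log q) δ) * Complex.exp (u * t * I)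
      rw [h5, Finset.mul_sum, Finset.mul_sum, Finset.mul_sum, Finset.sum_mul]
      refine Finset.sum_congr rfl fun q hq => ?_
      ring
    rw [h4, integral_const_mul, integral_finsetSum _ hint]
    congr 1
    refine Finset.sum_congr rfl fun q hqq => ?_
    rw [← integral_const_mul, ← integral_add_right_eq_self (μ := volume) (fun v : ℝ =>
      (q : ℂ) ^ (-(1 / 2 + t * I : ℂ)) *
        (f (v - Real.log q) * g v * Complex.exp (v * t * I))) (Real.log q)]
    apply integral_congr_ae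
    exact Eventually.of_forall fun u => hq q hqq u
  have hQ : ∀ q ∈ Qk w k, 1 ≤ q ∧ (q : ℝ) ≤ T := fun q hq =>
    ⟨(mem_Qk hq).1, (mem_Qk hq).2.2.2.trans hexp⟩
  have hs : ∀ q ∈ Qk w k, ∀ v ∉ Icc (pk w k / 2) (pk w (k + 1) + pk w k / 2),
      f (v - Real.log q) = 0 := by
    intro q hq v hv
    obtain ⟨-, h2, h3, -⟩ := mem_Qk hq
    have : pk w k / 2 < |v - Real.log q| := by
      by_contra hh
      obtain ⟨h4, h5⟩ := abs_le.1 (not_lt.1 hh)
      exact hv ⟨by linarith, by linarith⟩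
    show ((F (v - Real.log q) : ℝ) : ℂ) = 0
    rw [hsup _ this, Complex.ofReal_zero]
  have hp := H70P.piece (W := Wk w k) hφ hF (by linarith : (0 : ℝ) < T) hQ
    (hgc.continuousOn.integrableOn_Icc :
      IntegrableOn g (Icc (pk w k / 2) (pk w (k + 1) + pk w k / 2))) hs
  have e1 : ∫⁻ t in Icc T (2 * T), ENNReal.ofReal ‖SB A B δ F S β t‖ =
      ∫⁻ t in Icc T (2 * T), ENNReal.ofReal ‖(1 / (Wk w k : ℝ) : ℂ) * ∑ q ∈ Qk w k,
      (q : ℂ) ^ (-(1 / 2 + t * I : ℂ)) *
        ∫ v : ℝ, f (v - Real.log q) * g v * Complex.exp (v * t * I)‖ :=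
    lintegral_congr fun t => by rw [hSB t]
  rw [e1]
  refine hp.trans (mul_le_mul' (ENNReal.ofReal_le_ofReal ?_) (le_of_eq ?_))
  · have e2 : ∑ q ∈ Qk w k, 1 / (q : ℝ) = Wk w k := rfl
    have e3 : T / Wk w k ^ 2 * Wk w k = T / Wk w k := by
      field_simp
    rw [e2, e3]
    have h2 : T / Wk w k ≤ T := div_le_self (by linarith) hW1
    have h3 : (∫ x : ℝ, ‖φ x‖) ^ 2 ≤ m ^ 2 :=
      pow_le_pow_left₀ (integral_nonneg fun x => norm_nonneg _) hm 2
    have h4 : 0 ≤ T / Wk w k := by positivity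
    calc 300 * (∫ x : ℝ, ‖φ x‖) ^ 2 * (T / Wk w k) ≤ 300 * m ^ 2 * T :=
          mul_le_mul (by linarith) h2 h4 (by positivity)
      _ = _ := rfl
  · refine lintegral_congr fun v => ?_
    congr 1
    rw [hg]
    simp only [norm_mul, Complex.norm_real, Real.norm_eq_abs, Real.abs_exp]
    rw [mul_pow, ← Real.exp_nat_mul, mul_comm]
    congr 2
    push_cast
    ring

end Pool.Agent.Lib.MP_6bc78b_nt.GP.H70B
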